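import Pool.Agent.HP25.RD.B
import Pool.Agent.TH872.Sq.W15

set_option autoImplicit false

/-! The model for the von Mangoldt function at polynomials of the integers with random digits. -/

namespace Pool.Agent.HP25.RD
open Finset
open Pool.Agent.H807R2.Dav
open Pool.Agent.H373R2.T7
open Pool.Agent.TH872.Sq
open scoped Polynomial

/-- the number of the residues `a` modulo `p` for which `p` divides one of the values `F j (a) + c j` -/
def nuF {r : ℕ} (F : Fin r → ℤ[X]) (c : Fin r → ℤ) (p : ℕ) : ℕ :=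
  ((range p).filter (fun a : ℕ => ∃ j, (p : ℤ) ∣ (F j).eval (a : ℤ) + c j)).card

lemma rootsF (p : ℕ) (hp : p.Prime) (F : ℤ[X]) (c : ℤ) (hF1 : 1 ≤ F.natDegree) (hF : ¬ (p : ℤ) ∣ F.leadingCoeff) :
    ((range p).filter (fun a : ℕ => (p : ℤ) ∣ F.eval (a : ℤ) + c)).card ≤ F.natDegree := by
  classical
  have : Fact p.Prime := ⟨hp⟩
  obtain ⟨Q, hQ⟩ : ∃ Q : (ZMod p)[X], Q = (F + Polynomial.C c).map (Int.castRingHom (ZMod p)) := ⟨_, rfl⟩
  have hnd : (F + Polynomial.C c).natDegree = F.natDegree := Polynomial.natDegree_add_C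
  have hlc : Q.coeff F.natDegree ≠ 0 := by
    rw [hQ, Polynomial.coeff_map, Polynomial.coeff_add, Polynomial.coeff_C, if_neg (by omega), add_zero]
    intro h
    apply hF
    rw [← ZMod.intCast_zmod_eq_zero_iff_dvd] at *
    exact h
  have hQ0 : Q ≠ 0 := by
    rintro h
    rw [h] at hlc
    simp at hlc
  have hQd : Q.natDegree ≤ F.natDegree := by
    rw [hQ, ← hnd]
    exact Polynomial.natDegree_map_le
  have h1 : ((range p).filter (fun a : ℕ => (p : ℤ) ∣ F.eval (a : ℤ) + c)).card ≤ Q.roots.toFinset.card := by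
    apply card_le_card_of_injOn (fun a : ℕ => (a : ZMod p))
    · intro a ha
      rw [mem_coe, mem_filter] at ha
      rw [mem_coe, Multiset.mem_toFinset, Polynomial.mem_roots hQ0, Polynomial.IsRoot.def, hQ]
      have h2 : (((F + Polynomial.C c).eval (a : ℤ) : ℤ) : ZMod p) = 0 := by
        rw [ZMod.intCast_zmod_eq_zero_iff_dvd, Polynomial.eval_add, Polynomial.eval_C]
        exact ha.2
      have h3 := Polynomial.eval_intCast_map (Int.castRingHom (ZMod p)) (F + Polynomial.C c) (a : ℤ)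
      rw [Int.cast_natCast] at h3
      rw [h3]
      exact h2
    · intro a ha a' ha' h
      rw [mem_coe, mem_filter, mem_range] at ha ha'
      have h2 : (a : ZMod p) = (a' : ZMod p) := h
      rw [ZMod.natCast_eq_natCast_iff'] at h2
      rwa [Nat.mod_eq_of_lt ha.1, Nat.mod_eq_of_lt ha'.1] at h2
  exact h1.trans ((Multiset.toFinset_card_le _).trans ((Polynomial.card_roots' Q).trans hQd))

lemma nuF_le_p {r : ℕ} (F : Fin r → ℤ[X]) (c : Fin r → ℤ) (p : ℕ) : nuF F c p ≤ p := by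
  unfold nuF
  exact (card_filter_le _ _).trans (card_range p).le

lemma nuF_le {r : ℕ} (F : Fin r → ℤ[X]) (c : Fin r → ℤ) (d : ℕ) (hd : ∀ j, (F j).natDegree ≤ d) (p : ℕ) (hp : p.Prime)
    (hF1 : ∀ j, 1 ≤ (F j).natDegree) (h : ∀ j, ¬ (p : ℤ) ∣ (F j).leadingCoeff) : nuF F c p ≤ d * r := by
  classical
  unfold nuF
  have h1 : (range p).filter (fun a : ℕ => ∃ j, (p : ℤ) ∣ (F j).eval (a : ℤ) + c j) =
      univ.biUnion (fun j : Fin r => (range p).filter (fun a : ℕ => (p : ℤ) ∣ (F j).eval (a : ℤ) + c j)) := by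
    ext a
    simp only [mem_filter, mem_biUnion, mem_univ, true_and]
    constructor
    · rintro ⟨h1, j, h2⟩; exact ⟨j, h1, h2⟩
    · rintro ⟨j, h1, h2⟩; exact ⟨h1, j, h2⟩
  rw [h1]
  refine card_biUnion_le.trans ?_
  calc ∑ j : Fin r, ((range p).filter (fun a : ℕ => (p : ℤ) ∣ (F j).eval (a : ℤ) + c j)).card ≤ ∑ _j : Fin r, d :=
        sum_le_sum fun j _ => (rootsF p hp _ _ (hF1 j) (h j)).trans (hd j)
    _ = d * r := by rw [sum_const, card_univ, Fintype.card_fin, smul_eq_mul, mul_comm]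

/-- the average of the model: the probability that no value has a common prime factor with `f`, and the densities at the
other primes up to `z` -/
noncomputable def SgF (b f : ℕ) {r : ℕ} (w : ℕ → ℕ → ℝ) (i k : ℕ) (F : Fin r → ℤ[X]) (c : Fin r → ℤ) (z : ℕ) : ℝ :=
  (Vz z)⁻¹ ^ r * (∑ n ∈ (range (b ^ k)).filter (fun n : ℕ => ∀ p ∈ f.primeFactors, ¬ ∃ j, (p : ℤ) ∣ (F j).eval (n : ℤ) + c j), P b w i k n) *
    ∏ p ∈ (pz z).filter (fun p => ¬ p ∣ f), (1 - (nuF F c p : ℝ) / p)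

lemma polyF_mod (F : ℤ[X]) (c : ℤ) (p n a : ℕ) (h : (n : ℤ) % p = (a : ℤ) % p) :
    (p : ℤ) ∣ F.eval (n : ℤ) + c ↔ (p : ℤ) ∣ F.eval (a : ℤ) + c := by
  have h1 : (p : ℤ) ∣ (n : ℤ) - a := Int.dvd_of_emod_eq_zero (Int.emod_eq_emod_iff_emod_sub_eq_zero.1 h)
  have h2 : (p : ℤ) ∣ F.eval (n : ℤ) - F.eval (a : ℤ) := h1.trans (Polynomial.sub_dvd_eval_sub _ _ F)
  constructor
  · intro h3
    have := dvd_sub h3 h2
    have e : F.eval (n : ℤ) + c - (F.eval (n : ℤ) - F.eval (a : ℤ)) = F.eval (a : ℤ) + c := by ring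
    rwa [e] at this
  · intro h3
    have := dvd_add h3 h2
    have e : F.eval (a : ℤ) + c + (F.eval (n : ℤ) - F.eval (a : ℤ)) = F.eval (n : ℤ) + c := by ring
    rwa [e] at this

/-- the integers with random digits are well distributed in the residue classes coprime to `f`, jointly with the residue modulo `f` -/
def EquiP (b f : ℕ) (γ : ℝ) (w : ℕ → ℕ → ℝ) (i k : ℕ) : Prop := ∀ m H q : ℕ, Nat.Coprime q f → q ≤ b ^ m → H * (m + 1) + 1 ≤ k →
  ∀ Φ : ℕ → ℝ, (∀ n, |Φ n| ≤ 1) → (∀ n, Φ (n % f) = Φ n) → ∀ a : ℕ,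
    |∑ n ∈ range (b ^ k), P b w i k n * (Φ n * (if (q : ℤ) ∣ (n : ℤ) - a then 1 else 0)) - 1 / q * ∑ n ∈ range (b ^ k), P b w i k n * Φ n| ≤
      f * γ ^ H

lemma equiP_fac {b : ℕ} (hb : 2 ≤ b) {η : ℝ} (hη : 0 < η) {w : ℕ → ℕ → ℝ} (hw : Dig b η w) (i k : ℕ) :
    EquiP b b.factorial (g0 b η) w i k := fun m H q hq hqm hk Φ hΦ hper a =>
  equi hb hη hw i k m H q hq hqm (by omega) Φ hΦ hper a

/-- the average of the model -/
theorem model_F (b : ℕ) (hb : 2 ≤ b) (η : ℝ) (f : ℕ) (hf : 2 ≤ f) (γ : ℝ) (hg0 : 0 ≤ γ) (hg1 : γ < 1) (r : ℕ) (F : Fin r → ℤ[X])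
    (hF1 : ∀ j, 1 ≤ (F j).natDegree) (E U : ℕ) :
    ∃ K₀ : ℕ, ∀ k : ℕ, K₀ ≤ k → ∀ z : ℕ, f ≤ z → (z : ℝ) ≤ (k : ℝ) ^ E → ∀ w : ℕ → ℕ → ℝ, Dig b η w → ∀ i : ℕ,
    EquiP b f γ w i k → ∀ c : Fin r → ℤ,
    (∀ j, ∀ n < b ^ k, 1 ≤ (F j).eval (n : ℤ) + c j) →
    |∑ n ∈ range (b ^ k), P b w i k n * ∏ j, lamzI z ((F j).eval (n : ℤ) + c j) - SgF b f w i k F c z| ≤ 1 / (k : ℝ) ^ U := by
  classical
  obtain ⟨d, hdd⟩ : ∃ d : ℕ, ∀ j, (F j).natDegree ≤ d := ⟨univ.sup (fun j => (F j).natDegree), fun j => le_sup (f := fun j => (F j).natDegree) (mem_univ j)⟩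
  obtain ⟨D1, hD1⟩ : ∃ D1 : ℕ, D1 = d * r := ⟨_, rfl⟩
  obtain ⟨Kp, hKp⟩ : ∃ Kp : ℕ, Kp = ∏ j, ((F j).leadingCoeff).natAbs := ⟨_, rfl⟩
  have hKp0 : Kp ≠ 0 := by rw [hKp]; exact prod_ne_zero_iff.2 fun j _ => Int.natAbs_ne_zero.2 (Polynomial.leadingCoeff_ne_zero.2 (ne_zero_of_deg (hF1 j)))
  obtain ⟨C₄, hC₄⟩ : ∃ C₄ : ℕ, C₄ = 3 * D1 * (1 + E) + 3 * Kp + E * r + U + 3 := ⟨_, rfl⟩
  obtain ⟨C₅, hC₅⟩ : ∃ C₅ : ℕ, C₅ = E * C₄ := ⟨_, rfl⟩
  obtain ⟨C₇, hC₇⟩ := exists_pow_lt_of_lt_one (show (0 : ℝ) < 1 / 2 by norm_num) hg1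
  obtain ⟨C₈, hC₈⟩ : ∃ C₈ : ℕ, C₈ = 2 * C₅ + E * r + U + f + 1 := ⟨_, rfl⟩
  obtain ⟨K1, hK1⟩ := log4 (C₇ * C₈ * (C₅ + 1) + 1)
  refine ⟨K1 + 4, fun k hk z hbz hz w hw i hEq c hpos => ?_⟩
  obtain ⟨ℓ, hℓ⟩ : ∃ ℓ, ℓ = Nat.log 2 k + 1 := ⟨_, rfl⟩
  have hk1 := hK1 k (by omega)
  rw [← hℓ] at hk1
  have hℓ1 : 1 ≤ ℓ := by omega
  have hkℓ : k < 2 ^ ℓ := by rw [hℓ]; exact Nat.lt_pow_succ_log_self (by omega) k
  have hkr : (4 : ℝ) ≤ k := by exact_mod_cast (by omega : 4 ≤ k)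
  have hk0 : (0 : ℝ) < k := by linarith
  obtain ⟨m, hm⟩ : ∃ m, m = C₅ * ℓ ^ 2 := ⟨_, rfl⟩
  obtain ⟨H, hH⟩ : ∃ H, H = C₇ * (C₈ * ℓ ^ 2) := ⟨_, rfl⟩
  have hHm : H * (m + 1) + 1 ≤ k := by
    refine le_trans ?_ hk1
    rw [hH, hm, add_mul, one_mul]
    apply Nat.add_le_add _ (Nat.one_le_pow _ _ hℓ1)
    calc C₇ * (C₈ * ℓ ^ 2) * (C₅ * ℓ ^ 2 + 1) ≤ C₇ * (C₈ * ℓ ^ 2) * (C₅ * ℓ ^ 2 + ℓ ^ 2) :=
          Nat.mul_le_mul_left _ (Nat.add_le_add_left (Nat.one_le_pow _ _ hℓ1) _)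
      _ = _ := by ring
  have hzN : z ≤ k ^ E := by exact_mod_cast hz
  have hz2 : z + 1 ≤ 2 ^ (E * ℓ) + 1 ∧ (1 ≤ E → z + 1 ≤ 2 ^ (E * ℓ)) := by
    have h1 : k ^ E ≤ (2 ^ ℓ) ^ E := Nat.pow_le_pow_left hkℓ.le E
    rw [← pow_mul, mul_comm ℓ E] at h1
    refine ⟨by omega, fun hE => ?_⟩
    have h2 : k ^ E < (2 ^ ℓ) ^ E := Nat.pow_lt_pow_left hkℓ (by omega)
    rw [← pow_mul, mul_comm ℓ E] at h2
    omega
  have hE1 : 1 ≤ E := by
    by_contra h
    have : E = 0 := by omega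
    rw [this, pow_zero] at hzN
    omega
  have hz3 := hz2.2 hE1
  obtain ⟨R, hR⟩ : ∃ R, R = C₄ * ℓ := ⟨_, rfl⟩
  obtain ⟨D, hD⟩ : ∃ D, D = (z + 1) ^ R := ⟨_, rfl⟩
  have hD2 : D ≤ 2 ^ m := by
    rw [hD, hR, hm, hC₅]
    calc (z + 1) ^ (C₄ * ℓ) ≤ (2 ^ (E * ℓ)) ^ (C₄ * ℓ) := Nat.pow_le_pow_left hz3 _
      _ = _ := by rw [← pow_mul]; congr 1; ring
  have hDb : D ≤ b ^ m := hD2.trans (Nat.pow_le_pow_left hb m)
  -- the events
  obtain ⟨Ev, hEv⟩ : ∃ Ev : ℕ → ℕ → Prop, ∀ p n, Ev p n ↔ ∃ j, (p : ℤ) ∣ (F j).eval (n : ℤ) + c j := ⟨_, fun _ _ => Iff.rfl⟩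
  obtain ⟨s, hs⟩ : ∃ s, s = (range (b ^ k)).filter (fun n : ℕ => ∀ p ∈ f.primeFactors, ¬ Ev p n) := ⟨_, rfl⟩
  obtain ⟨T, hT⟩ : ∃ T, T = (pz z).filter (fun p => ¬ p ∣ f) := ⟨_, rfl⟩
  obtain ⟨Xs, hXs⟩ : ∃ Xs : ℝ, Xs = ∑ n ∈ s, P b w i k n := ⟨_, rfl⟩
  have hP0 := P_nonneg hw i k
  have hX0 : 0 ≤ Xs := by rw [hXs]; exact sum_nonneg fun n _ => hP0 n
  have hX1 : Xs ≤ 1 := by
    rw [hXs, ← P_sum (by omega : 0 < b) hw i k, hs]
    exact sum_le_sum_of_subset_of_nonneg (filter_subset _ _) fun n _ _ => hP0 n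
  have hTp : ∀ p ∈ T, p.Prime ∧ ¬ p ∣ f ∧ p ≤ z := by
    intro p hp
    rw [hT, mem_filter, mem_pz] at hp
    exact ⟨hp.1.2, hp.2, hp.1.1⟩
  obtain ⟨g, hg⟩ : ∃ g : ℕ → ℝ, ∀ p, g p = (nuF F c p : ℝ) / p := ⟨_, fun _ => rfl⟩
  have hg01 : ∀ p ∈ T, 0 ≤ g p ∧ g p ≤ 1 := by
    intro p hp
    rw [hg]
    refine ⟨by positivity, ?_⟩
    have hp0 : (0 : ℝ) < p := by exact_mod_cast (hTp p hp).1.pos
    rw [div_le_one hp0]
    exact_mod_cast nuF_le_p F c p
  obtain ⟨Φ, hΦ⟩ : ∃ Φ : ℕ → ℝ, ∀ n, Φ n = if ∀ p ∈ f.primeFactors, ¬ Ev p n then 1 else 0 := ⟨_, fun _ => rfl⟩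
  have hΦ1 : ∀ n, |Φ n| ≤ 1 := by
    intro n; rw [hΦ]; split_ifs <;> norm_num
  have hΦper : ∀ n, Φ (n % f) = Φ n := by
    intro n
    rw [hΦ, hΦ]
    have h1 : (∀ p ∈ f.primeFactors, ¬ Ev p (n % f)) ↔ (∀ p ∈ f.primeFactors, ¬ Ev p n) := by
      apply forall₂_congr
      intro p hp
      rw [hEv, hEv]
      apply not_congr
      apply exists_congr
      intro j
      apply polyF_mod
      have hd : (p : ℤ) ∣ (f : ℤ) := by exact_mod_cast Nat.dvd_of_mem_primeFactors hp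
      push_cast
      exact Int.emod_emod_of_dvd _ hd
    simp only [h1]
  have hXF : ∑ n ∈ range (b ^ k), P b w i k n * Φ n = Xs := by
    rw [hXs, hs, sum_filter]
    apply sum_congr rfl
    intro n _
    rw [hΦ]
    split_ifs <;> simp
  have hRS : ∀ S ⊆ T, S.card ≤ R → |∑ n ∈ s with ∀ p ∈ S, Ev p n, P b w i k n - Xs * ∏ p ∈ S, g p| ≤
      (fun _ : Finset ℕ => (D : ℝ) * (f * γ ^ H)) S := by
    intro S hS hSc
    have hSp : ∀ p ∈ S, p.Prime := fun p hp => (hTp p (hS hp)).1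
    obtain ⟨q, hq⟩ : ∃ q, q = ∏ p ∈ S, p := ⟨_, rfl⟩
    have hqD : q ≤ D := by
      rw [hq, hD]
      apply prod_le_pow S z R _ hSc
      intro p hp
      rw [mem_pz]
      exact ⟨(hTp p (hS hp)).2.2, hSp p hp⟩
    have hq0 : 0 < q := by rw [hq]; exact prod_pos fun p hp => (hSp p hp).pos
    have hqr : (0 : ℝ) < q := by exact_mod_cast hq0
    have hqc : Nat.Coprime q f := by
      rw [hq]
      apply Nat.Coprime.prod_left
      intro p hp
      rw [(hSp p hp).coprime_iff_not_dvd]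
      exact (hTp p (hS hp)).2.1
    obtain ⟨A, hA⟩ : ∃ A, A = (range q).filter (fun a : ℕ => ∀ p ∈ S, Ev p (a % p)) := ⟨_, rfl⟩
    have hAc : A.card = ∏ p ∈ S, nuF F c p := by
      have h1 := crt_card (fun p a => Ev p a) S hSp
      rw [← hq, ← hA] at h1
      rw [h1]
      apply prod_congr rfl
      intro p _
      unfold nuF
      congr 1
      apply filter_congr
      intro a _
      exact hEv p a
    have hAq : A.card ≤ q := by rw [hA]; exact (card_filter_le _ _).trans (card_range q).le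
    have h1 : ∑ n ∈ s with ∀ p ∈ S, Ev p n, P b w i k n =
        ∑ a ∈ A, ∑ n ∈ range (b ^ k), P b w i k n * (Φ n * (if (q : ℤ) ∣ (n : ℤ) - a then 1 else 0)) := by
      rw [sum_comm, hs, filter_filter, sum_filter]
      apply sum_congr rfl
      intro n _
      rw [← mul_sum, ← mul_sum]
      have h2 : ∑ a ∈ A, (if (q : ℤ) ∣ (n : ℤ) - a then (1 : ℝ) else 0) = if ∀ p ∈ S, Ev p n then 1 else 0 := by
        have h3 : ∀ a ∈ A, (if (q : ℤ) ∣ (n : ℤ) - a then (1 : ℝ) else 0) = if a = n % q then 1 else 0 := by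
          intro a ha
          rw [hA, mem_filter, mem_range] at ha
          have h4 : (q : ℤ) ∣ (n : ℤ) - a ↔ a = n % q := by
            constructor
            · intro hd
              have h5 : ((n : ℤ) - a) % q = 0 := Int.emod_eq_zero_of_dvd hd
              have h6 : (n : ℤ) % q = (a : ℤ) % q := Int.emod_eq_emod_iff_emod_sub_eq_zero.2 h5
              rw [Int.emod_eq_of_lt (by positivity : (0 : ℤ) ≤ a) (by exact_mod_cast ha.1)] at h6
              exact_mod_cast h6.symm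
            · intro h5
              rw [h5]
              push_cast
              exact Int.dvd_self_sub_emod
          simp only [h4]
        rw [sum_congr rfl h3, sum_ite_eq']
        have h5 : n % q ∈ A ↔ ∀ p ∈ S, Ev p n := by
          rw [hA, mem_filter, mem_range]
          constructor
          · rintro ⟨_, h6⟩ p hp
            have h7 := h6 p hp
            rw [hEv] at h7 ⊢
            obtain ⟨j, hj⟩ := h7
            refine ⟨j, (polyF_mod _ _ p n (n % q % p) ?_).2 hj⟩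
            have hd : (p : ℤ) ∣ (q : ℤ) := by
              rw [hq]; exact_mod_cast dvd_prod_of_mem _ hp
            push_cast
            rw [Int.emod_emod_of_dvd _ (dvd_refl _), Int.emod_emod_of_dvd _ hd]
          · intro h6
            refine ⟨Nat.mod_lt _ hq0, fun p hp => ?_⟩
            have h7 := h6 p hp
            rw [hEv] at h7 ⊢
            obtain ⟨j, hj⟩ := h7
            refine ⟨j, (polyF_mod _ _ p n (n % q % p) ?_).1 hj⟩
            have hd : (p : ℤ) ∣ (q : ℤ) := by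
              rw [hq]; exact_mod_cast dvd_prod_of_mem _ hp
            push_cast
            rw [Int.emod_emod_of_dvd _ (dvd_refl _), Int.emod_emod_of_dvd _ hd]
        simp only [h5]
      rw [h2, hΦ]
      by_cases h8 : ∀ p ∈ f.primeFactors, ¬ Ev p n
      · by_cases h9 : ∀ p ∈ S, Ev p n
        · rw [if_pos ⟨h8, h9⟩, if_pos h8, if_pos h9, mul_one, mul_one]
        · rw [if_neg (fun h => h9 h.2), if_neg h9, mul_zero, mul_zero]
      · rw [if_neg (fun h => h8 h.1), if_neg h8, zero_mul, mul_zero]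
    have h2 : Xs * ∏ p ∈ S, g p = ∑ a ∈ A, 1 / q * ∑ n ∈ range (b ^ k), P b w i k n * Φ n := by
      rw [hXF, sum_const, nsmul_eq_mul, hAc]
      simp only [hg]
      rw [prod_div_distrib, hq]
      push_cast
      ring
    rw [h1, h2, ← sum_sub_distrib]
    refine (abs_sum_le_sum_abs _ _).trans ?_
    calc ∑ a ∈ A, |∑ n ∈ range (b ^ k), P b w i k n * (Φ n * (if (q : ℤ) ∣ (n : ℤ) - a then 1 else 0)) - 1 / q * ∑ n ∈ range (b ^ k), P b w i k n * Φ n| ≤
        ∑ _a ∈ A, f * γ ^ H :=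
          sum_le_sum fun a _ => hEq m H q hqc (hqD.trans hDb) hHm Φ hΦ1 hΦper a
      _ = (A.card : ℝ) * (f * γ ^ H) := by rw [sum_const, nsmul_eq_mul]
      _ ≤ _ := by
          apply mul_le_mul_of_nonneg_right _ (by have := pow_nonneg hg0 H; positivity)
          exact_mod_cast hAq.trans hqD
  have key := sieve_gen' s (fun n => P b w i k n) (fun n _ => hP0 n) Ev T g hg01 Xs hX0 _ R hRS
  -- the value
  have hval : ∑ n ∈ range (b ^ k), P b w i k n * ∏ j, lamzI z ((F j).eval (n : ℤ) + c j) =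
      (Vz z)⁻¹ ^ r * ∑ n ∈ s with ∀ p ∈ T, ¬ Ev p n, P b w i k n := by
    rw [hs, filter_filter, sum_filter, mul_sum]
    apply sum_congr rfl
    intro n hn
    have hq : ∀ j, (F j).eval (n : ℤ) + c j = (F j).eval (n : ℤ) + c j := fun j => rfl
    have h1 : ∀ j, lamzI z ((F j).eval (n : ℤ) + c j) = if ∀ p ∈ pz z, ¬ (p : ℤ) ∣ (F j).eval (n : ℤ) + c j then (Vz z)⁻¹ else 0 := by
      intro j
      have h2 := hpos j n (mem_range.1 hn)
      unfold lamzI lamz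
      rw [if_pos h2, ← hq]
      have h3 : (∀ p ∈ pz z, ¬ p ∣ ((F j).eval (n : ℤ) + c j).toNat) ↔ (∀ p ∈ pz z, ¬ (p : ℤ) ∣ (F j).eval (n : ℤ) + c j) := by
        apply forall₂_congr
        intro p _
        apply not_congr
        have h4 : (((F j).eval (n : ℤ) + c j).toNat : ℤ) = (F j).eval (n : ℤ) + c j := Int.toNat_of_nonneg (by omega)
        constructor
        · intro h5
          have : (p : ℤ) ∣ (((F j).eval (n : ℤ) + c j).toNat : ℤ) := by exact_mod_cast h5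
          rwa [h4] at this
        · intro h5
          rw [← h4] at h5
          exact_mod_cast h5
      simp only [h3]
    by_cases h2 : ∀ p ∈ pz z, ¬ Ev p n
    · have h3 : ∀ j, lamzI z ((F j).eval (n : ℤ) + c j) = (Vz z)⁻¹ := by
        intro j
        rw [h1, if_pos]
        intro p hp hd
        exact h2 p hp ((hEv p n).2 ⟨j, hd⟩)
      have h4 : (∀ p ∈ f.primeFactors, ¬ Ev p n) ∧ ∀ p ∈ T, ¬ Ev p n := by
        constructor
        · intro p hp
          exact h2 p (mem_pz.2 ⟨(Nat.le_of_dvd (by omega) (Nat.dvd_of_mem_primeFactors hp)).trans hbz, Nat.prime_of_mem_primeFactors hp⟩)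
        · intro p hp
          exact h2 p (mem_pz.2 ⟨(hTp p hp).2.2, (hTp p hp).1⟩)
      rw [if_pos h4]
      simp only [h3]
      rw [prod_const, card_univ, Fintype.card_fin, mul_comm]
    · have h4 : ¬ ((∀ p ∈ f.primeFactors, ¬ Ev p n) ∧ ∀ p ∈ T, ¬ Ev p n) := by
        intro h5
        apply h2
        intro p hp
        rw [mem_pz] at hp
        by_cases h6 : p ∣ f
        · exact h5.1 p (Nat.mem_primeFactors.2 ⟨hp.2, h6, by omega⟩)
        · exact h5.2 p (by rw [hT, mem_filter, mem_pz]; exact ⟨hp, h6⟩)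
      rw [if_neg h4, mul_zero]
      push Not at h2
      obtain ⟨p, hp, hEp⟩ := h2
      rw [hEv] at hEp
      obtain ⟨j, hj⟩ := hEp
      rw [prod_eq_zero (mem_univ j), mul_zero]
      rw [h1, if_neg]
      push Not
      exact ⟨p, hp, hj⟩
  have hSg : SgF b f w i k F c z = (Vz z)⁻¹ ^ r * (Xs * ∏ p ∈ T, (1 - g p)) := by
    unfold SgF
    rw [hXs, hs, hT, mul_assoc]
    congr 2
    · apply sum_congr _ fun _ _ => rfl
      apply filter_congr
      intro n _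
      apply forall₂_congr
      intro p _
      rw [hEv]
    · apply prod_congr rfl
      intro p _
      rw [hg]
  rw [hval, hSg, ← mul_sub, abs_mul, abs_of_nonneg (pow_nonneg (inv_nonneg.2 (Vz_pos z).le) r)]
  -- the numerical part
  have hlogk : Real.log k ≤ ℓ := by
    have h1 : (k : ℝ) ≤ 2 ^ ℓ := by exact_mod_cast hkℓ.le
    calc Real.log k ≤ Real.log (2 ^ ℓ) := Real.log_le_log hk0 h1
      _ = ℓ * Real.log 2 := Real.log_pow _ _
      _ ≤ ℓ * 1 := by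
          apply mul_le_mul_of_nonneg_left _ (Nat.cast_nonneg _)
          have := Real.log_two_lt_d9
          linarith
      _ = ℓ := mul_one _
  have hz0 : (0 : ℝ) < z := by exact_mod_cast (by omega : 0 < z)
  have hlogz : Real.log z ≤ E * ℓ := by
    calc Real.log z ≤ Real.log ((k : ℝ) ^ E) := Real.log_le_log hz0 hz
      _ = E * Real.log k := Real.log_pow _ _
      _ ≤ _ := mul_le_mul_of_nonneg_left hlogk (Nat.cast_nonneg _)
  have hℓr : (1 : ℝ) ≤ ℓ := by exact_mod_cast hℓ1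
  have hVr : (Vz z)⁻¹ ^ r ≤ (k : ℝ) ^ (E * r) := by
    rw [pow_mul]
    apply pow_le_pow_left₀ (inv_nonneg.2 (Vz_pos z).le)
    exact (Vz_inv_le z (by omega)).trans hz
  have hcount : ∑ j ∈ range (R + 1), ∑ S ∈ T.powersetCard j, (fun _ : Finset ℕ => (D : ℝ) * (f * γ ^ H)) S ≤
      (D : ℝ) * (D * (f * γ ^ H)) := by
    have h1 : ∑ j ∈ range (R + 1), ∑ S ∈ T.powersetCard j, (fun _ : Finset ℕ => (D : ℝ) * (f * γ ^ H)) S =
        ((∑ j ∈ range (R + 1), (T.powersetCard j).card : ℕ) : ℝ) * (D * (f * γ ^ H)) := by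
      push_cast
      rw [sum_mul]
      apply sum_congr rfl
      intro j _
      rw [sum_const, nsmul_eq_mul]
    rw [h1]
    apply mul_le_mul_of_nonneg_right _ (by have := pow_nonneg hg0 H; positivity)
    refine (card_small T R).trans ?_
    rw [hD]
    push_cast
    apply pow_le_pow_left₀ (by positivity)
    have h2 : T.card ≤ z := by
      rw [hT]
      exact (card_filter_le _ _).trans (card_pz_le z)
    have : (T.card : ℝ) ≤ z := by exact_mod_cast h2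
    linarith
  have hes : es g T R ≤ Real.exp (-((E * r + U + 3 : ℕ) : ℝ) * ℓ) := by
    refine (es_le (fun p hp => (hg01 p hp).1) R).trans ?_
    apply Real.exp_le_exp.2
    have h1 : ∑ p ∈ T, g p ≤ D1 * (1 + Real.log z) + Kp := by
      have h2 : ∀ p ∈ T, g p ≤ D1 * (1 / (p : ℝ)) + (if p ∣ Kp then 1 else 0) := by
        intro p hp
        have hp0 : (0 : ℝ) < p := by exact_mod_cast (hTp p hp).1.pos
        by_cases hd : p ∣ Kp
        · rw [if_pos hd]
          have := (hg01 p hp).2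
          have h3 : (0 : ℝ) ≤ D1 * (1 / (p : ℝ)) := by positivity
          linarith
        · rw [if_neg hd, add_zero, hg]
          have h3 : nuF F c p ≤ D1 := by
            rw [hD1]
            apply nuF_le F c d hdd p (hTp p hp).1 hF1
            intro j hj
            apply hd
            rw [hKp]
            exact (Int.natCast_dvd.1 hj).trans (dvd_prod_of_mem _ (mem_univ j))
          have h4 : (nuF F c p : ℝ) ≤ D1 := by exact_mod_cast h3
          calc (nuF F c p : ℝ) / p ≤ D1 / p := div_le_div_of_nonneg_right h4 hp0.le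
            _ = _ := by ring
      refine (sum_le_sum h2).trans ?_
      rw [sum_add_distrib, ← mul_sum]
      apply add_le_add
      · apply mul_le_mul_of_nonneg_left _ (by positivity)
        refine le_trans ?_ (sum_pz_le z)
        rw [hT]
        exact sum_le_sum_of_subset_of_nonneg (filter_subset _ _) (fun _ _ _ => by positivity)
      · rw [sum_boole]
        have h3 : (T.filter (fun p => p ∣ Kp)).card ≤ (Icc 1 Kp).card := by
          apply card_le_card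
          intro p hp
          rw [mem_filter] at hp
          rw [mem_Icc]
          exact ⟨(hTp p hp.1).1.pos, Nat.le_of_dvd (Nat.pos_of_ne_zero hKp0) hp.2⟩
        rw [Nat.card_Icc, Nat.add_sub_cancel] at h3
        exact_mod_cast h3
    have h5 : (R : ℝ) = ((3 * D1 * (1 + E) + 3 * Kp + E * r + U + 3 : ℕ) : ℝ) * ℓ := by rw [hR, hC₄]; push_cast; ring
    rw [h5]
    have h6 : 3 * ∑ p ∈ T, g p ≤ (3 * D1 * (1 + E) + 3 * Kp) * ℓ := by
      have h7 : (D1 : ℝ) * (1 + Real.log z) ≤ D1 * ((1 + E) * ℓ) := by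
        apply mul_le_mul_of_nonneg_left _ (by positivity)
        linarith
      have h8 : (Kp : ℝ) * 1 ≤ Kp * ℓ := mul_le_mul_of_nonneg_left hℓr (Nat.cast_nonneg _)
      nlinarith
    push_cast
    nlinarith
  have hexp : Real.exp (-((E * r + U + 3 : ℕ) : ℝ) * ℓ) ≤ 1 / 4 * (1 / (k : ℝ) ^ (E * r + U)) := by
    have h1 : -((E * r + U + 3 : ℕ) : ℝ) * ℓ ≤ -((E * r + U : ℕ) : ℝ) * Real.log k + (-3) := by
      push_cast
      have h2 : ((E : ℝ) * r + U) * Real.log k ≤ (E * r + U) * ℓ := mul_le_mul_of_nonneg_left hlogk (by positivity)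
      nlinarith
    refine (Real.exp_le_exp.2 h1).trans ?_
    rw [Real.exp_add, mul_comm]
    apply mul_le_mul
    · have h2 : (4 : ℝ) ≤ Real.exp 3 := by
        have h3 := Real.add_one_le_exp (3 : ℝ)
        linarith
      rw [Real.exp_neg, ← one_div]
      exact one_div_le_one_div_of_le (by norm_num) h2
    · have h3 : -((E * r + U : ℕ) : ℝ) * Real.log k = -(((E * r + U : ℕ) : ℝ) * Real.log k) := by ring
      rw [h3, Real.exp_neg, ← Real.log_pow, Real.exp_log (by positivity), one_div]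
    · exact (Real.exp_pos _).le
    · norm_num
  have hmain2 : (D : ℝ) * (D * (f * γ ^ H)) ≤ 1 / 2 * (1 / (k : ℝ) ^ (E * r + U)) := by
    have h1 : γ ^ H ≤ (1 / 2) ^ (C₈ * ℓ ^ 2) := by
      rw [hH, pow_mul]
      exact pow_le_pow_left₀ (pow_nonneg hg0 _) hC₇.le _
    have h2 : (D : ℝ) ≤ 2 ^ m := by exact_mod_cast hD2
    have h3 : (f : ℝ) ≤ 2 ^ (f * ℓ ^ 2) := by
      have h4 : f ≤ 2 ^ (f * ℓ ^ 2) := by
        calc f ≤ 2 ^ f := Nat.lt_two_pow_self.le
          _ ≤ _ := Nat.pow_le_pow_right (by omega) (Nat.le_mul_of_pos_right _ (by positivity))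
      exact_mod_cast h4
    have h5 : (k : ℝ) ^ (E * r + U) * 2 ≤ 2 ^ ((E * r + U) * ℓ ^ 2 + ℓ ^ 2) := by
      have h6 : k ^ (E * r + U) * 2 ≤ 2 ^ ((E * r + U) * ℓ ^ 2 + ℓ ^ 2) := by
        rw [pow_add 2]
        apply Nat.mul_le_mul
        · calc k ^ (E * r + U) ≤ (2 ^ ℓ) ^ (E * r + U) := Nat.pow_le_pow_left hkℓ.le _
            _ = 2 ^ (ℓ * (E * r + U)) := by rw [← pow_mul]
            _ ≤ _ := Nat.pow_le_pow_right (by omega) (by
                rw [mul_comm ℓ]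
                exact Nat.mul_le_mul_left _ (Nat.le_self_pow (by norm_num) ℓ))
        · calc 2 = 2 ^ 1 := rfl
            _ ≤ _ := Nat.pow_le_pow_right (by omega) (Nat.one_le_pow _ _ hℓ1)
      exact_mod_cast h6
    have h7 : (D : ℝ) * (D * (f * γ ^ H)) * ((k : ℝ) ^ (E * r + U) * 2) ≤ 1 := by
      calc (D : ℝ) * (D * (f * γ ^ H)) * ((k : ℝ) ^ (E * r + U) * 2) ≤
          2 ^ m * (2 ^ m * (2 ^ (f * ℓ ^ 2) * (1 / 2) ^ (C₈ * ℓ ^ 2))) * 2 ^ ((E * r + U) * ℓ ^ 2 + ℓ ^ 2) := by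
            have := pow_nonneg hg0 H
            gcongr
        _ = 1 := by
            have e1 : (1 / 2 : ℝ) ^ (C₈ * ℓ ^ 2) = 1 / 2 ^ (C₈ * ℓ ^ 2) := by rw [div_pow, one_pow]
            have e2 : C₈ * ℓ ^ 2 = m + m + f * ℓ ^ 2 + ((E * r + U) * ℓ ^ 2 + ℓ ^ 2) := by rw [hC₈, hm]; ring
            rw [e1, e2, pow_add, pow_add, pow_add]
            field_simp
    have h8 : (0 : ℝ) < (k : ℝ) ^ (E * r + U) * 2 := by positivity
    calc (D : ℝ) * (D * (f * γ ^ H)) ≤ 1 / ((k : ℝ) ^ (E * r + U) * 2) := by rwa [le_div_iff₀ h8]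
      _ = _ := by field_simp
  have hfin : |∑ n ∈ s with ∀ p ∈ T, ¬ Ev p n, P b w i k n - Xs * ∏ p ∈ T, (1 - g p)| ≤ 1 / (k : ℝ) ^ (E * r + U) := by
    refine key.trans ?_
    have h1 : 2 * Xs * es g T R ≤ 2 * 1 * (1 / 4 * (1 / (k : ℝ) ^ (E * r + U))) := by
      apply mul_le_mul _ (hes.trans hexp) (es_nonneg (fun p hp => (hg01 p hp).1) R) (by norm_num)
      linarith
    have h2 := hcount.trans hmain2
    linarith
  calc (Vz z)⁻¹ ^ r * |∑ n ∈ s with ∀ p ∈ T, ¬ Ev p n, P b w i k n - Xs * ∏ p ∈ T, (1 - g p)| ≤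
      (k : ℝ) ^ (E * r) * (1 / (k : ℝ) ^ (E * r + U)) := mul_le_mul hVr hfin (abs_nonneg _) (by positivity)
    _ = _ := by
        rw [pow_add]
        field_simp

end Pool.Agent.HP25.RD
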