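import Pool.Agent.HP25.RD.E

set_option autoImplicit false

/-! Nice functions at integers of both signs; windows and progressions of the arguments. -/

namespace Pool.Agent.HP25.RD
open Finset
open Pool.Agent.H807R2.Dav
open Pool.Agent.H373R2.T7
open Pool.Agent.W93.DG
open Pool.Agent.W93.LM (Nice)
open Pool.Agent.TH872.Sq
open scoped Polynomial

/-- the even extension of `f` -/
noncomputable def ex (f : ℕ → ℝ) (x : ℤ) : ℝ := fx f x + fx f (-x)

/-- the polynomial with the sign `ε` -/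
noncomputable def sg (ε : ℤ) (F : ℤ[X]) : ℤ[X] := Polynomial.C ε * F

lemma sg_ok {ε : ℤ} (hε : ε = 1 ∨ ε = -1) {F : ℤ[X]} (h1 : 1 ≤ F.natDegree) (h0 : F.coeff 0 = 0) :
    (sg ε F).natDegree = F.natDegree ∧ 1 ≤ (sg ε F).natDegree ∧ (sg ε F).coeff 0 = 0 ∧ ∀ x : ℤ, (sg ε F).eval x = ε * F.eval x := by
  have hε0 : ε ≠ 0 := by rcases hε with h | h <;> rw [h] <;> norm_num
  have e : (sg ε F).natDegree = F.natDegree := Polynomial.natDegree_C_mul hε0
  refine ⟨e, by rw [e]; exact h1, ?_, fun x => ?_⟩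
  · unfold sg
    rw [Polynomial.coeff_C_mul, h0, mul_zero]
  · unfold sg
    rw [Polynomial.eval_mul, Polynomial.eval_C]

open Classical in
/-- **Several polynomials, nice functions extended to the negative integers.** -/
theorem tuple_ex (b : ℕ) (hb : 2 ≤ b) (r : ℕ) (hr : 1 ≤ r) (F : Fin r → ℤ[X]) (hF1 : ∀ j, 1 ≤ (F j).natDegree)
    (hF0 : ∀ j, (F j).coeff 0 = 0) (f : ℕ → ℝ) (hf : Nice (fun n => ((f n : ℝ) : ℂ))) (F₀ U : ℕ) :
    ∃ K₀ : ℕ, ∀ k : ℕ, K₀ ≤ k → ∀ D : ℕ → Finset ℕ, (∀ i < k, D i ⊆ range b ∧ 2 ≤ (D i).card) →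
    ∀ σ : Fin r → ℤ, (∀ j, σ j = 1 ∨ σ j = -1) →
    ∀ X : Fin r → ℕ, (∀ j, b ^ ((F j).natDegree * k) ≤ X j ∧ X j ≤ F₀ * b ^ ((F j).natDegree * k)) →
    ∀ G : ℕ → ℝ, (∀ n, |G n| ≤ 1) →
    ∑ c ∈ Fintype.piFinset (fun j : Fin r => Icc 1 (X j)), |1 / ((SD b D k).card : ℝ) * ∑ n ∈ SD b D k,
      G n * ∏ j, ex f ((F j).eval (n : ℤ) + σ j * (c j : ℤ))| ≤ (∏ j, (X j : ℝ)) / (k : ℝ) ^ U := by
  -- all sign patterns
  have h1 : ∀ t : Finset (Fin r), ∃ K₀ : ℕ, ∀ k : ℕ, K₀ ≤ k →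
      ∀ w : ℕ → ℕ → ℝ, Dig b (1 / 2) w → ∀ σ : Fin r → ℤ, (∀ j, σ j = 1 ∨ σ j = -1) →
      ∀ X : Fin r → ℕ, (∀ j, b ^ ((F j).natDegree * k) ≤ X j ∧ X j ≤ F₀ * b ^ ((F j).natDegree * k)) →
      ∀ G : ℕ → ℝ, (∀ n, |G n| ≤ 1) →
      ∑ c ∈ Fintype.piFinset (fun j : Fin r => Icc 1 (X j)), |∑ n ∈ range (b ^ k), P b w 0 k n *
        (G n * ((∏ j ∈ t, fx f ((F j).eval (n : ℤ) + σ j * (c j : ℤ))) * ∏ j ∈ univ \ t, fx f (-((F j).eval (n : ℤ) + σ j * (c j : ℤ)))))| ≤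
        (∏ j, (X j : ℝ)) / (k : ℝ) ^ (U + 1) := by
    intro t
    obtain ⟨ε, hε⟩ : ∃ ε : Fin r → ℤ, ∀ j, ε j = if j ∈ t then 1 else -1 := ⟨_, fun _ => rfl⟩
    have hε1 : ∀ j, ε j = 1 ∨ ε j = -1 := by intro j; rw [hε]; split_ifs; exacts [Or.inl rfl, Or.inr rfl]
    have hsg := fun j => sg_ok (hε1 j) (hF1 j) (hF0 j)
    obtain ⟨B, h2⟩ := tuple_F b hb (1 / 2) (by norm_num) r (fun j => sg (ε j) (F j)) (fun j => (hsg j).2.1) (fun j => (hsg j).2.2.1)
      univ (fun _ => f) (fun _ _ => hf) (fun j hj => absurd (mem_univ j) hj) F₀ (U + 1)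
    obtain ⟨K₀, h3⟩ := h2 B
    refine ⟨K₀, fun k hk w hw σ hσ X hX G hG => ?_⟩
    have h4 := h3 k hk (k ^ B) (by push_cast; exact le_rfl) (by push_cast; exact le_rfl) w hw 0 (fun j => ε j * σ j) (fun j => by
      rcases hε1 j with h | h <;> rcases hσ j with h' | h' <;> rw [h, h'] <;> simp) X (fun j => by
        rw [(hsg j).1]; exact hX j) G hG
    refine le_trans (le_of_eq ?_) h4
    apply sum_congr rfl
    intro c _
    congr 1
    apply sum_congr rfl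
    intro n _
    congr 2
    have e0 : ∏ j : Fin r, (if j ∈ (univ : Finset (Fin r)) then (0 : ℝ) else lamzI (k ^ B) ((sg (ε j) (F j)).eval (n : ℤ) + ε j * σ j * (c j : ℤ))) = 0 :=
      prod_eq_zero (mem_univ (⟨0, hr⟩ : Fin r)) (if_pos (mem_univ _))
    rw [e0, sub_zero, ← prod_sdiff (subset_univ t), mul_comm]
    congr 1
    · apply prod_congr rfl
      intro j hj
      rw [mem_sdiff] at hj
      have : ε j = -1 := by rw [hε, if_neg hj.2]
      rw [(hsg j).2.2.2, this]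
      congr 1
      ring
    · apply prod_congr rfl
      intro j hj
      have : ε j = 1 := by rw [hε, if_pos hj]
      rw [(hsg j).2.2.2, this]
      congr 1
      ring
  choose K0 hK0 using h1
  refine ⟨univ.sup K0 + 2 ^ r + 1, fun k hk D hD σ hσ X hX G hG => ?_⟩
  have hk0 : (0 : ℝ) < k := by
    have : 0 < k := by
      have h2 : 0 < 2 ^ r := by positivity
      omega
    exact_mod_cast this
  have hprod : 0 ≤ ∏ j, (X j : ℝ) := prod_nonneg fun j _ => Nat.cast_nonneg _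
  have h2 : ∀ c : Fin r → ℕ, |1 / ((SD b D k).card : ℝ) * ∑ n ∈ SD b D k, G n * ∏ j, ex f ((F j).eval (n : ℤ) + σ j * (c j : ℤ))| ≤
      ∑ t : Finset (Fin r), |∑ n ∈ range (b ^ k), P b (wD D k) 0 k n *
        (G n * ((∏ j ∈ t, fx f ((F j).eval (n : ℤ) + σ j * (c j : ℤ))) * ∏ j ∈ univ \ t, fx f (-((F j).eval (n : ℤ) + σ j * (c j : ℤ)))))| := by
    intro c
    rw [← sum_wD b hb D k hD]
    refine le_trans (le_of_eq ?_) (abs_sum_le_sum_abs _ _)
    congr 1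
    rw [sum_comm]
    apply sum_congr rfl
    intro n _
    rw [← mul_sum, ← mul_sum]
    congr 2
    unfold ex
    rw [prod_add]
    rw [powerset_univ]
  refine (sum_le_sum fun c _ => h2 c).trans ?_
  rw [sum_comm]
  have h3 : ∀ t ∈ (univ : Finset (Finset (Fin r))), ∑ c ∈ Fintype.piFinset (fun j : Fin r => Icc 1 (X j)), |∑ n ∈ range (b ^ k), P b (wD D k) 0 k n *
        (G n * ((∏ j ∈ t, fx f ((F j).eval (n : ℤ) + σ j * (c j : ℤ))) * ∏ j ∈ univ \ t, fx f (-((F j).eval (n : ℤ) + σ j * (c j : ℤ)))))| ≤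
        (∏ j, (X j : ℝ)) / (k : ℝ) ^ (U + 1) := by
    intro t _
    have hKt : K0 t ≤ k := by
      have h2r : 0 < 2 ^ r := by positivity
      have := le_sup (f := K0) (mem_univ t)
      omega
    exact hK0 t k hKt (wD D k) (dig_wD b hb D k hD) σ hσ X hX G hG
  refine (sum_le_sum h3).trans ?_
  rw [sum_const, card_univ, Fintype.card_finset, Fintype.card_fin, nsmul_eq_mul]
  have h4 : (∏ j, (X j : ℝ)) / (k : ℝ) ^ (U + 1) = (∏ j, (X j : ℝ)) / (k : ℝ) ^ U / k := by rw [pow_succ, div_div]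
  rw [h4]
  have h5 : ((2 ^ r : ℕ) : ℝ) ≤ k := by exact_mod_cast (by omega : 2 ^ r ≤ k)
  have h6 : 0 ≤ (∏ j, (X j : ℝ)) / (k : ℝ) ^ U := by positivity
  calc ((2 ^ r : ℕ) : ℝ) * ((∏ j, (X j : ℝ)) / (k : ℝ) ^ U / k) ≤ k * ((∏ j, (X j : ℝ)) / (k : ℝ) ^ U / k) :=
        mul_le_mul_of_nonneg_right h5 (by positivity)
    _ = _ := by field_simp

open Classical in
/-- **Nice functions in the box.** -/
theorem nice_box (b : ℕ) (hb : 2 ≤ b) (r : ℕ) (hr : 1 ≤ r) (F : Fin r → ℤ[X]) (hF1 : ∀ j, 1 ≤ (F j).natDegree) (hF0 : ∀ j, (F j).coeff 0 = 0)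
    (f : ℕ → ℝ) (hf : Nice (fun n => ((f n : ℝ) : ℂ)))
    (T U : ℕ) (hT : 1 ≤ T) : ∃ K₀ : ℕ, ∀ k : ℕ, K₀ ≤ k →
    ∀ D : ℕ → Finset ℕ, (∀ i < k, D i ⊆ range b ∧ 2 ≤ (D i).card) → ∀ G : ℕ → ℝ, (∀ n, |G n| ≤ 1) →
    ∀ Q : (Fin r → ℤ) → Prop, (∀ c, Q c → 1 / (k : ℝ) ^ U < |1 / ((SD b D k).card : ℝ) * ∑ n ∈ SD b D k,
      G n * ∏ j, ex f ((F j).eval (n : ℤ) + c j)|) →
    (((Box b F T k).filter Q).card : ℝ) ≤ (∏ j, (b : ℝ) ^ ((F j).natDegree * k)) / (k : ℝ) ^ U := by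
  obtain ⟨K1, h2⟩ := tuple_ex b hb r hr F hF1 hF0 f hf T (2 * (U + 1))
  obtain ⟨K2, h3⟩ := box_num b hb r F hF1 T U hT
  refine ⟨K1 + K2 + 1, fun k hk D hD G hG Q hQ => ?_⟩
  have hk1 : (1 : ℝ) ≤ k := by exact_mod_cast (by omega : 1 ≤ k)
  apply h3 k (by omega)
  intro σ hσ
  have h4 := h2 k (by omega) D hD σ hσ (fun j => T * b ^ ((F j).natDegree * k)) (fun j => ⟨Nat.le_mul_of_pos_left _ hT, le_rfl⟩) G hG
  exact almost _ _ _ k (U + 1) (by omega) h4 (fun c => Q (fun j => σ j * (c j : ℤ))) (by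
    intro c _ hc
    refine lt_of_le_of_lt ?_ (hQ _ hc)
    apply one_div_le_one_div_of_le (by positivity)
    exact pow_le_pow_right₀ hk1 (by omega))

/-- a grid of initial segments of a finite set -/
lemma grid (S : Finset ℕ) (M : ℕ) (hM : 1 ≤ M) : ∃ t : ℕ → ℕ, ∀ v : ℕ, ∃ i ≤ M, t i ≤ v ∧
    (((S.filter (fun m => t i ≤ m ∧ m < v)).card : ℕ) : ℝ) ≤ (S.card : ℝ) / M := by
  classical
  have hMr : (0 : ℝ) < M := by exact_mod_cast hM
  obtain ⟨c, hc⟩ : ∃ c : ℕ → ℕ, ∀ v, c v = (S.filter (fun m => m < v)).card := ⟨_, fun _ => rfl⟩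
  have hcS : ∀ v, c v ≤ S.card := fun v => by rw [hc]; exact card_filter_le _ _
  -- the least point with at least `i / M` of the elements before it
  have hex : ∀ i : ℕ, ∃ t : ℕ, ∀ v, i * S.card ≤ M * c v → t ≤ v ∧ i * S.card ≤ M * c t := by
    intro i
    by_cases h : ∃ v, i * S.card ≤ M * c v
    · refine ⟨Nat.find h, fun v hv => ⟨Nat.find_min' h hv, Nat.find_spec h⟩⟩
    · push Not at h
      exact ⟨0, fun v hv => absurd hv (not_le.2 (h v))⟩
  choose t ht using hex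
  refine ⟨t, fun v => ?_⟩
  rcases Nat.eq_zero_or_pos S.card with h0 | h0
  · refine ⟨0, Nat.zero_le _, (ht 0 v (by rw [zero_mul]; exact Nat.zero_le _)).1, ?_⟩
    have : (S.filter (fun m => t 0 ≤ m ∧ m < v)).card = 0 := by
      have := card_filter_le S (fun m => t 0 ≤ m ∧ m < v)
      omega
    rw [this, h0]
    simp
  · obtain ⟨i, hi⟩ : ∃ i, i = M * c v / S.card := ⟨_, rfl⟩
    have hi1 : i * S.card ≤ M * c v := by rw [hi]; exact Nat.div_mul_le_self _ _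
    have hi2 : M * c v < (i + 1) * S.card := by
      rw [hi, mul_comm _ S.card]
      exact Nat.lt_mul_div_succ _ h0
    have hiM : i ≤ M := by
      have h1 : i * S.card ≤ M * S.card := hi1.trans (Nat.mul_le_mul_left _ (hcS v))
      exact Nat.le_of_mul_le_mul_right h1 h0
    obtain ⟨ht1, ht2⟩ := ht i v hi1
    refine ⟨i, hiM, ht1, ?_⟩
    have h3 : (S.filter (fun m => t i ≤ m ∧ m < v)).card + c (t i) = c v := by
      rw [hc, hc, ← card_union_of_disjoint]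
      · congr 1
        ext m
        rw [mem_union, mem_filter, mem_filter, mem_filter]
        constructor
        · rintro (⟨h1, h2, h3⟩ | ⟨h1, h2⟩)
          · exact ⟨h1, h3⟩
          · exact ⟨h1, by omega⟩
        · rintro ⟨h1, h2⟩
          rcases Nat.lt_or_ge m (t i) with h | h
          · exact Or.inr ⟨h1, h⟩
          · exact Or.inl ⟨h1, h, h2⟩
      · rw [disjoint_left]
        intro m hm hm'
        rw [mem_filter] at hm hm'
        omega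
    rw [le_div_iff₀ hMr]
    have h4 : (S.filter (fun m => t i ≤ m ∧ m < v)).card * M ≤ S.card := by
      have h5 : M * (S.filter (fun m => t i ≤ m ∧ m < v)).card + M * c (t i) = M * c v := by rw [← mul_add, h3]
      have h6 : (i + 1) * S.card = i * S.card + S.card := by ring
      rw [mul_comm]
      omega
    exact_mod_cast h4

open Classical in
/-- **Nice functions in the box**, windows and progressions of the arguments. -/
theorem nice_windows (b : ℕ) (hb : 2 ≤ b) (r : ℕ) (hr : 1 ≤ r) (F : Fin r → ℤ[X]) (hF1 : ∀ j, 1 ≤ (F j).natDegree) (hF0 : ∀ j, (F j).coeff 0 = 0)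
    (f : ℕ → ℝ) (hf : Nice (fun n => ((f n : ℝ) : ℂ)))
    (T κ U : ℕ) (hT : 1 ≤ T) : ∃ K₀ : ℕ, ∀ k : ℕ, K₀ ≤ k →
    ∀ D : ℕ → Finset ℕ, (∀ i < k, D i ⊆ range b ∧ 2 ≤ (D i).card) → ∀ G : ℕ → ℝ, (∀ n, |G n| ≤ 1) →
    ∃ Bad : Finset (Fin r → ℤ), (Bad.card : ℝ) ≤ (∏ j, (b : ℝ) ^ ((F j).natDegree * k)) / (k : ℝ) ^ U ∧
    ∀ c ∈ Box b F T k, c ∉ Bad → ∀ v q a : ℕ, 1 ≤ q → q ≤ k ^ κ →
      |∑ n ∈ (SD b D k).filter (fun n : ℕ => n < v ∧ n % q = a), G n * ∏ j, ex f ((F j).eval (n : ℤ) + c j)| ≤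
        ((SD b D k).card : ℝ) / (k : ℝ) ^ U := by
  obtain ⟨V, hV⟩ : ∃ V, V = 2 * U + 2 * κ + 4 := ⟨_, rfl⟩
  obtain ⟨K1, h2⟩ := nice_box b hb r hr F hF1 hF0 f hf T V hT
  refine ⟨K1 + 4, fun k hk D hD G hG => ?_⟩
  have hk4 : (4 : ℝ) ≤ k := by exact_mod_cast (by omega : 4 ≤ k)
  have hk1 : (1 : ℝ) ≤ k := by linarith
  have hk0 : (0 : ℝ) < k := by linarith
  obtain ⟨S, hS⟩ : ∃ S, S = SD b D k := ⟨_, rfl⟩
  have hS0 : (0 : ℝ) < S.card := by rw [hS]; exact SD_card_pos b hb D k hD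
  obtain ⟨M, hM⟩ : ∃ M, M = k ^ (U + 1) := ⟨_, rfl⟩
  have hM1 : 1 ≤ M := by rw [hM]; exact Nat.one_le_pow _ _ (by omega)
  obtain ⟨t, ht⟩ := grid S M hM1
  obtain ⟨Pr, hPr⟩ : ∃ Pr : ℝ, Pr = ∏ j, (b : ℝ) ^ ((F j).natDegree * k) := ⟨_, rfl⟩
  have hPr0 : 0 ≤ Pr := by rw [hPr]; positivity
  obtain ⟨G', hG'⟩ : ∃ G' : ℕ → ℕ → ℕ → ℕ → ℝ, ∀ i q a n, G' i q a n = if n < t i ∧ n % q = a then G n else 0 := ⟨_, fun _ _ _ _ => rfl⟩
  have hG'1 : ∀ i q a n, |G' i q a n| ≤ 1 := by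
    intro i q a n
    rw [hG']
    split_ifs
    · exact hG n
    · rw [abs_zero]; exact zero_le_one
  obtain ⟨Q, hQ⟩ : ∃ Q : ℕ → ℕ → ℕ → (Fin r → ℤ) → Prop, ∀ i q a c, Q i q a c ↔ 1 / (k : ℝ) ^ V <
    |1 / ((SD b D k).card : ℝ) * ∑ n ∈ SD b D k, G' i q a n * ∏ j, ex f ((F j).eval (n : ℤ) + c j)| := ⟨_, fun _ _ _ _ => Iff.rfl⟩
  have hQc : ∀ i q a, (((Box b F T k).filter (Q i q a)).card : ℝ) ≤ Pr / (k : ℝ) ^ V := by
    intro i q a
    rw [hPr]
    exact h2 k (by omega) D hD (G' i q a) (hG'1 i q a) (Q i q a) (fun c hc => (hQ i q a c).1 hc)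
  obtain ⟨I, hI⟩ : ∃ I : Finset (ℕ × ℕ × ℕ), I = range (M + 1) ×ˢ range (k ^ κ + 1) ×ˢ range (k ^ κ + 1) := ⟨_, rfl⟩
  refine ⟨I.biUnion (fun x => (Box b F T k).filter (Q x.1 x.2.1 x.2.2)), ?_, ?_⟩
  · have h3 := (Nat.cast_le (α := ℝ)).2 (card_biUnion_le (s := I) (t := fun x => (Box b F T k).filter (Q x.1 x.2.1 x.2.2)))
    refine h3.trans ?_
    push_cast
    refine (sum_le_sum fun x _ => hQc x.1 x.2.1 x.2.2).trans ?_
    rw [sum_const, nsmul_eq_mul, ← hPr]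
    have h4 : (I.card : ℝ) ≤ (k : ℝ) ^ (U + 2 + 2 * κ + 2) := by
      rw [hI, card_product, card_product, card_range, card_range, hM]
      push_cast
      have h5 : (k : ℝ) ^ (U + 1) + 1 ≤ (k : ℝ) ^ (U + 2) := by
        rw [pow_succ (k : ℝ) (U + 1)]
        have : 1 ≤ (k : ℝ) ^ (U + 1) := one_le_pow₀ hk1
        nlinarith
      have h6 : (k : ℝ) ^ κ + 1 ≤ (k : ℝ) ^ (κ + 1) := by
        rw [pow_succ]
        have : 1 ≤ (k : ℝ) ^ κ := one_le_pow₀ hk1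
        nlinarith
      calc ((k : ℝ) ^ (U + 1) + 1) * (((k : ℝ) ^ κ + 1) * ((k : ℝ) ^ κ + 1)) ≤ (k : ℝ) ^ (U + 2) * ((k : ℝ) ^ (κ + 1) * (k : ℝ) ^ (κ + 1)) := by
            gcongr
        _ = _ := by rw [← pow_add, ← pow_add]; congr 1; ring
    calc (I.card : ℝ) * (Pr / (k : ℝ) ^ V) ≤ (k : ℝ) ^ (U + 2 + 2 * κ + 2) * (Pr / (k : ℝ) ^ V) :=
          mul_le_mul_of_nonneg_right h4 (by positivity)
      _ = Pr / (k : ℝ) ^ U := by
          rw [hV, show 2 * U + 2 * κ + 4 = (U + 2 + 2 * κ + 2) + U by ring, pow_add (k : ℝ) (U + 2 + 2 * κ + 2) U]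
          field_simp
  · intro c hc hcB v q a hq1 hq2
    rw [mem_biUnion] at hcB
    push Not at hcB
    by_cases haq : a < q
    swap
    · have : (SD b D k).filter (fun n : ℕ => n < v ∧ n % q = a) = ∅ := by
        rw [filter_eq_empty_iff]
        rintro n _ ⟨_, h3⟩
        have := Nat.mod_lt n hq1
        omega
      rw [this, sum_empty, abs_zero]
      positivity
    obtain ⟨i, hi, hti, hcard⟩ := ht v
    have h3 : ¬ Q i q a c := by
      intro h4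
      refine hcB (i, q, a) ?_ (mem_filter.2 ⟨hc, h4⟩)
      rw [hI, mem_product, mem_product, mem_range, mem_range, mem_range]
      refine ⟨?_, ?_, ?_⟩
      · show i < M + 1
        omega
      · show q < k ^ κ + 1
        omega
      · show a < k ^ κ + 1
        omega
    rw [hQ, not_lt] at h3
    rw [← hS] at h3 ⊢
    obtain ⟨g, hg⟩ : ∃ g : ℕ → ℝ, ∀ n, g n = G n * ∏ j, ex f ((F j).eval (n : ℤ) + c j) := ⟨_, fun _ => rfl⟩
    have hg1 : ∀ n, |g n| ≤ 1 := by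
      intro n
      rw [hg, abs_mul, abs_prod]
      have h5 : ∀ x : ℤ, |ex f x| ≤ 1 := by
        intro x
        have hf1 : ∀ m, |f m| ≤ 1 := fun m => by
          have := hf.1 m
          rwa [Complex.norm_real, Real.norm_eq_abs] at this
        unfold ex fx
        by_cases h6 : 1 ≤ x
        · rw [if_pos h6, if_neg (by omega), add_zero]
          exact hf1 _
        · rw [if_neg h6, zero_add]
          split_ifs
          · exact hf1 _
          · rw [abs_zero]; exact zero_le_one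
      have h6 : ∏ j, |ex f ((F j).eval (n : ℤ) + c j)| ≤ 1 := prod_le_one (fun _ _ => abs_nonneg _) fun j _ => h5 _
      have h7 : 0 ≤ ∏ j, |ex f ((F j).eval (n : ℤ) + c j)| := prod_nonneg fun _ _ => abs_nonneg _
      have h8 := hG n
      have h9 := abs_nonneg (G n)
      nlinarith
    -- splitting
    have e1 : ∑ n ∈ S.filter (fun n : ℕ => n < v ∧ n % q = a), g n =
        ∑ n ∈ S, G' i q a n * (∏ j, ex f ((F j).eval (n : ℤ) + c j)) +
          ∑ n ∈ S.filter (fun n : ℕ => t i ≤ n ∧ n < v), (if n % q = a then g n else 0) := by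
      rw [sum_filter, sum_filter, ← sum_add_distrib]
      apply sum_congr rfl
      intro n _
      rw [hG', hg]
      by_cases h5 : n % q = a
      · by_cases h6 : n < t i
        · rw [if_pos ⟨by omega, h5⟩, if_pos ⟨h6, h5⟩, if_neg (by omega), add_zero]
        · by_cases h7 : n < v
          · rw [if_pos ⟨h7, h5⟩, if_neg (fun h => h6 h.1), if_pos ⟨by omega, h7⟩, if_pos h5]; ring
          · rw [if_neg (fun h => h7 h.1), if_neg (fun h => h6 h.1), if_neg (fun h => h7 h.2)]; ring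
      · rw [if_neg (fun h => h5 h.2), if_neg (fun h => h5 h.2)]
        split_ifs <;> ring
    have e2 : |∑ n ∈ S.filter (fun n : ℕ => t i ≤ n ∧ n < v), (if n % q = a then g n else 0)| ≤ (S.card : ℝ) / M := by
      refine (abs_sum_le_sum_abs _ _).trans ?_
      refine le_trans ?_ hcard
      calc ∑ n ∈ S.filter (fun n : ℕ => t i ≤ n ∧ n < v), |if n % q = a then g n else 0| ≤
          ∑ _n ∈ S.filter (fun n : ℕ => t i ≤ n ∧ n < v), (1 : ℝ) := by
            apply sum_le_sum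
            intro n _
            split_ifs
            · exact hg1 n
            · rw [abs_zero]; exact zero_le_one
        _ = _ := by rw [sum_const, nsmul_eq_mul, mul_one]
    have e3 : |∑ n ∈ S, G' i q a n * (∏ j, ex f ((F j).eval (n : ℤ) + c j))| ≤ (S.card : ℝ) / (k : ℝ) ^ V := by
      rw [abs_mul, abs_of_pos (by positivity : 0 < 1 / (S.card : ℝ)), one_div, inv_mul_eq_div, div_le_iff₀ hS0] at h3
      refine h3.trans (le_of_eq ?_)
      ring
    have e4 : ∑ n ∈ S.filter (fun n : ℕ => n < v ∧ n % q = a), G n * ∏ j, ex f ((F j).eval (n : ℤ) + c j) =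
        ∑ n ∈ S.filter (fun n : ℕ => n < v ∧ n % q = a), g n := sum_congr rfl fun n _ => (hg n).symm
    rw [e4, e1]
    refine (abs_add_le _ _).trans ?_
    have h5 : (S.card : ℝ) / (k : ℝ) ^ V ≤ (S.card : ℝ) / (k : ℝ) ^ (U + 1) := by
      apply div_le_div_of_nonneg_left hS0.le (by positivity)
      exact pow_le_pow_right₀ hk1 (by omega)
    have h6 : (S.card : ℝ) / M = (S.card : ℝ) / (k : ℝ) ^ (U + 1) := by rw [hM]; push_cast; rfl
    have h7 : (S.card : ℝ) / (k : ℝ) ^ (U + 1) = (S.card : ℝ) / (k : ℝ) ^ U / k := by rw [pow_succ, div_div]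
    have h8 : 0 ≤ (S.card : ℝ) / (k : ℝ) ^ U := by positivity
    have h9 : (S.card : ℝ) / (k : ℝ) ^ U / k ≤ (S.card : ℝ) / (k : ℝ) ^ U / 4 := div_le_div_of_nonneg_left h8 (by norm_num) hk4
    linarith

end Pool.Agent.HP25.RD
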