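import Pool.Agent.HP25.OS.E
import Pool.Agent.TH872.Sq.W14

set_option autoImplicit false

/-! One coordinate: polynomials of arbitrary degree at integers with random digits; arbitrary coefficients. -/

namespace Pool.Agent.HP25.RD
open Finset
open Pool.Agent.H807R2.Dav
open Pool.Agent.H373R2.T7
open Pool.Agent.W93.DG
open Pool.Agent.W93.LM (Nice)
open Pool.Agent.TH872.Sq
open Pool.Agent.HP25.PD
open Pool.Agent.HP25.OS (Mo logs)
open scoped Polynomial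

/-- the sum of the absolute values of the coefficients -/
def hgt (F : ℤ[X]) : ℕ := ∑ i ∈ range (F.natDegree + 1), (F.coeff i).natAbs

lemma eval_le (F : ℤ[X]) (x M : ℕ) (hM : 1 ≤ M) (hx : x ≤ M) : |F.eval (x : ℤ)| ≤ (hgt F : ℤ) * (M : ℤ) ^ F.natDegree := by
  rw [Polynomial.eval_eq_sum_range]
  refine (abs_sum_le_sum_abs _ _).trans ?_
  unfold hgt
  push_cast
  rw [sum_mul]
  apply sum_le_sum
  intro i hi
  rw [mem_range] at hi
  rw [abs_mul, abs_of_nonneg (by positivity : (0 : ℤ) ≤ (x : ℤ) ^ i)]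
  apply mul_le_mul_of_nonneg_left _ (abs_nonneg _)
  calc (x : ℤ) ^ i ≤ (M : ℤ) ^ i := pow_le_pow_left₀ (by positivity) (by exact_mod_cast hx) i
    _ ≤ (M : ℤ) ^ F.natDegree := pow_le_pow_right₀ (by exact_mod_cast hM) (by omega)

lemma eval_le_pow (F : ℤ[X]) (b k n : ℕ) (hb : 2 ≤ b) (hn : n < b ^ k) :
    |F.eval (n : ℤ)| ≤ ((hgt F * b ^ (F.natDegree * k) : ℕ) : ℤ) := by
  refine (eval_le F n (b ^ k) (Nat.one_le_pow _ _ (by omega)) hn.le).trans (le_of_eq ?_)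
  push_cast
  rw [← pow_mul, mul_comm k]

/-- the range of the values -/
def rgF (F : ℤ[X]) (F₀ : ℕ) : ℕ := F₀ + hgt F

lemma up_F (F : ℤ[X]) (σ : ℤ) (F₀ b k n c X : ℕ) (hb : 2 ≤ b) (hσ : σ = 1 ∨ σ = -1) (hn : n < b ^ k) (hc : c ≤ X)
    (hX : X ≤ F₀ * b ^ (F.natDegree * k)) :
    F.eval (n : ℤ) + σ * (c : ℤ) ≤ ((rgF F F₀ * b ^ (F.natDegree * k) : ℕ) : ℤ) := by
  have h1 := (abs_le.1 (eval_le_pow F b k n hb hn)).2
  have h2 : ((c : ℕ) : ℤ) ≤ ((F₀ * b ^ (F.natDegree * k) : ℕ) : ℤ) := by exact_mod_cast hc.trans hX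
  have h3 : σ * (c : ℤ) ≤ c := by rcases hσ with h | h <;> rw [h] <;> omega
  unfold rgF
  push_cast at h1 h2 ⊢
  linarith

/-- the moments for independent random digits -/
theorem mo_dig (b : ℕ) (hb : 2 ≤ b) (η : ℝ) (hη : 0 < η) (e κ₁ κ₂ : ℕ) : ∃ (q : ℕ) (C₀ : ℝ), 1 ≤ q ∧ 0 < C₀ ∧ ∀ k : ℕ,
    ∀ (w : ℕ → ℕ → ℝ), Dig b η w → ∀ (i : ℕ) (κ : ℝ) (f : ℝ → ℝ), |κ| ≤ κ₁ → 1 ≤ κ₂ * |κ| → Pl e κ f →
    Mo q C₀ (b ^ ((e + 2) * k)) (range (b ^ k)) (fun n => P b w i k n) (fun n => f n) := by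
  classical
  obtain ⟨q, hq, hmom⟩ := PD.moment b hb η hη e
  obtain ⟨Cf, hCf, hm⟩ := hmom (12 * q) κ₁ κ₂ (by omega)
  refine ⟨q, Cf, hq, hCf, fun k w hw i κ f hκ1 hκ2 hf => ?_⟩
  obtain ⟨N, hN⟩ : ∃ N, N = b ^ ((e + 2) * k) := ⟨_, rfl⟩
  have hN1 : 1 ≤ N := by rw [hN]; exact Nat.one_le_pow _ _ (by omega)
  obtain ⟨M, hM⟩ : ∃ M, M = 12 * q * N := ⟨_, rfl⟩
  have hMN : N ≤ M := by rw [hM]; exact Nat.le_mul_of_pos_left _ (by omega)
  have h2 := hm k M (by rw [← hN]; exact hMN) (by rw [hM, hN]) w hw i κ f hκ1 hκ2 hf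
  rw [← hN]
  refine ⟨fun n _ => P_nonneg hw i k n, P_sum (by omega) hw i k, ?_⟩
  rw [← hM]
  refine le_trans ?_ h2
  apply sum_le_sum_of_subset_of_nonneg
  · exact range_subset_range.2 hMN
  · intro t _ _
    positivity

lemma lead_bounds (F : ℤ[X]) (hF : F ≠ 0) : |(F.leadingCoeff : ℝ)| ≤ F.leadingCoeff.natAbs ∧ 1 ≤ ((1 : ℕ) : ℝ) * |(F.leadingCoeff : ℝ)| := by
  have h0 : F.leadingCoeff ≠ 0 := Polynomial.leadingCoeff_ne_zero.2 hF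
  have h1 : |(F.leadingCoeff : ℝ)| = (F.leadingCoeff.natAbs : ℝ) := by
    rw [← Int.cast_abs, Int.abs_eq_natAbs, Int.cast_natCast]
  rw [h1]
  refine ⟨le_rfl, ?_⟩
  rw [Nat.cast_one, one_mul]
  exact_mod_cast Int.natAbs_pos.2 h0

/-- the moments for integer polynomials -/
theorem mo_int (b : ℕ) (hb : 2 ≤ b) (η : ℝ) (hη : 0 < η) (F : ℤ[X]) (hF : 2 ≤ F.natDegree) : ∃ (q : ℕ) (C₀ : ℝ), 1 ≤ q ∧ 0 < C₀ ∧
    ∀ k : ℕ, ∀ (w : ℕ → ℕ → ℝ), Dig b η w → ∀ i : ℕ,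
    Mo q C₀ (b ^ (F.natDegree * k)) (range (b ^ k)) (fun n => P b w i k n) (fun n => ((F.eval (n : ℤ) : ℤ) : ℝ)) := by
  obtain ⟨e, he⟩ : ∃ e, F.natDegree = e + 2 := ⟨F.natDegree - 2, by omega⟩
  have hF0 : F ≠ 0 := by
    rintro rfl
    simp at hF
  obtain ⟨q, C₀, hq, hC, h⟩ := mo_dig b hb η hη e F.leadingCoeff.natAbs 1
  refine ⟨q, C₀, hq, hC, fun k w hw i => ?_⟩
  have hmap : (F.map (Int.castRingHom ℝ)).natDegree = e + 2 := by
    rw [Polynomial.natDegree_map_eq_of_injective (RingHom.injective_int _), he]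
  have hlc : (F.map (Int.castRingHom ℝ)).leadingCoeff = (F.leadingCoeff : ℝ) := by
    rw [Polynomial.leadingCoeff_map_of_injective (RingHom.injective_int _)]
    rfl
  obtain ⟨l1, l2⟩ := lead_bounds F hF0
  have h1 := h k w hw i (F.map (Int.castRingHom ℝ)).leadingCoeff (fun x => (F.map (Int.castRingHom ℝ)).eval x)
    (by rw [hlc]; exact l1) (by rw [hlc]; exact l2) (OS.pl_pol e _ hmap)
  rw [he]
  refine ⟨h1.nonneg, h1.sum, ?_⟩
  refine le_trans (le_of_eq ?_) h1.mom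
  apply sum_congr rfl
  intro t _
  congr 2
  apply sum_congr rfl
  intro n _
  congr 3
  rw [Polynomial.eval_natCast_map]
  simp

/-- logarithms of powers of the base -/
lemma log_base (b d : ℕ) (hb : 2 ≤ b) (hd : 1 ≤ d) : ∃ K₀ : ℕ, ∀ k : ℕ, K₀ ≤ k →
    (k : ℝ) ≤ Real.log ((b ^ (d * k) : ℕ) : ℝ) ^ 2 ∧ Real.log ((b ^ (d * k) : ℕ) : ℝ) ≤ (k : ℝ) ^ 2 ∧
    (k : ℝ) ≤ 2 * Real.log ((b ^ (d * k) : ℕ) : ℝ) := by
  have hb2 : (2 : ℝ) ≤ b := by exact_mod_cast hb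
  have hd2 : (1 : ℝ) ≤ d := by exact_mod_cast hd
  obtain ⟨K, hK⟩ := exists_nat_ge (d * Real.log b + 4)
  refine ⟨K, fun k hk => ?_⟩
  have hkK : (K : ℝ) ≤ k := by exact_mod_cast hk
  have hlb : Real.log 2 ≤ Real.log b := Real.log_le_log (by norm_num) hb2
  have hl2 := Real.log_two_gt_d9
  have h1 : (1 / 2 : ℝ) ≤ d * Real.log b := by nlinarith
  have hk4 : (4 : ℝ) ≤ k := by linarith
  have e : Real.log ((b ^ (d * k) : ℕ) : ℝ) = k * (d * Real.log b) := by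
    push_cast
    rw [Real.log_pow]
    push_cast
    ring
  rw [e]
  obtain ⟨y, hy⟩ : ∃ y, y = d * Real.log b := ⟨_, rfl⟩
  rw [← hy] at h1 hK ⊢
  have hyk : y ≤ k := by linarith
  have h2 : (k : ℝ) / 2 ≤ k * y := by nlinarith
  refine ⟨?_, by nlinarith, by linarith⟩
  have h3 : ((k : ℝ) / 2) ^ 2 ≤ (k * y) ^ 2 := pow_le_pow_left₀ (by positivity) h2 2
  nlinarith

/-- **The von Mangoldt function and its model**, one polynomial without constant term. -/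
theorem one_vmF (b : ℕ) (hb : 2 ≤ b) (η : ℝ) (hη : 0 < η) (F : ℤ[X]) (hF1 : 1 ≤ F.natDegree) (hF0 : F.coeff 0 = 0) (F₀ U : ℕ) :
    ∃ B : ℕ, ∀ E : ℕ, ∃ K₀ : ℕ, ∀ k : ℕ, K₀ ≤ k → ∀ z : ℕ, (k : ℝ) ^ B ≤ z → (z : ℝ) ≤ (k : ℝ) ^ E →
    ∀ w : ℕ → ℕ → ℝ, Dig b η w → ∀ i : ℕ, ∀ σ : ℤ, (σ = 1 ∨ σ = -1) → ∀ X : ℕ, X ≤ F₀ * b ^ (F.natDegree * k) →
    ∀ G : ℕ → ℝ, (∀ n, |G n| ≤ 1) →
    ∑ c ∈ Icc 1 X, |∑ n ∈ range (b ^ k), P b w i k n * (G n * (lamI (F.eval (n : ℤ) + σ * (c : ℤ)) - lamzI z (F.eval (n : ℤ) + σ * (c : ℤ))))| ≤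
      ((b ^ (F.natDegree * k) : ℕ) : ℝ) / (k : ℝ) ^ U := by
  rcases Nat.lt_or_ge F.natDegree 2 with h1 | h2
  · have hd : F.natDegree = 1 := by omega
    obtain ⟨β, hβ⟩ : ∃ β, β = F.coeff 1 := ⟨_, rfl⟩
    have hβ0 : β ≠ 0 := by
      rw [hβ, ← hd]
      apply Polynomial.leadingCoeff_ne_zero.2
      rintro rfl
      simp at hF1
    obtain ⟨B, hB⟩ := one_lam_lin b hb η hη β hβ0 F₀ U
    refine ⟨B, fun E => ?_⟩
    obtain ⟨K₀, hK₀⟩ := hB E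
    refine ⟨K₀, fun k hk z hz1 hz2 w hw i σ hσ X hX G hG => ?_⟩
    rw [hd, one_mul] at hX ⊢
    have hev : ∀ n : ℕ, F.eval (n : ℤ) = β * (n : ℤ) := by
      intro n
      rw [Polynomial.eval_eq_sum_range, hd, sum_range_succ, sum_range_one, hF0, hβ]
      ring
    simp only [hev]
    exact hK₀ k hk z hz1 hz2 w hw i σ hσ X hX G hG
  · obtain ⟨q, C₀, hq, hC₀, hmo⟩ := mo_int b hb η hη F h2
    obtain ⟨B, hB⟩ := OS.one_vm (ι := ℕ) q hq C₀ hC₀ (hgt F) (F₀ + 1) 0 (2 * U + 1) (by omega)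
    refine ⟨2 * B, fun E => ?_⟩
    obtain ⟨K1, hK1⟩ := hB (2 * E)
    obtain ⟨K2, hK2⟩ := log_base b F.natDegree hb hF1
    refine ⟨K1 + K2 + 4, fun k hk z hz1 hz2 w hw i σ hσ X hX G hG => ?_⟩
    obtain ⟨l1, l2, l3⟩ := hK2 k (by omega)
    obtain ⟨Y, hY⟩ : ∃ Y, Y = b ^ (F.natDegree * k) := ⟨_, rfl⟩
    have hmo' := hmo k w hw i
    rw [← hY] at l1 l2 l3 hX hmo' ⊢
    obtain ⟨L, hL⟩ : ∃ L, L = Real.log Y := ⟨_, rfl⟩
    rw [← hL] at l1 l2 l3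
    have hkr : (4 : ℝ) ≤ k := by exact_mod_cast (by omega : 4 ≤ k)
    have hk0 : (0 : ℝ) < k := by linarith
    have hL2 : 2 ≤ L := by linarith
    have hY1 : 1 ≤ Y := by rw [hY]; exact Nat.one_le_pow _ _ (by omega)
    have hKY : K1 ≤ Y := by
      calc K1 ≤ k := by omega
        _ ≤ F.natDegree * k := Nat.le_mul_of_pos_left _ (by omega)
        _ ≤ Y := by rw [hY]; exact (Nat.lt_pow_self (by omega)).le
    have h3 := hK1 Y hKY Y (Nat.le_mul_of_pos_left _ (by omega)) (Nat.le_mul_of_pos_left _ (by omega)) (range (b ^ k)) _ _ hmo'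
      (fun n => F.eval (n : ℤ)) (fun n _ => by simp) (fun n hn => by
        have := eval_le_pow F b k n hb (mem_range.1 hn)
        rwa [← hY] at this) z (by
        rw [← hL]
        refine le_trans ?_ hz1
        rw [pow_mul]
        exact pow_le_pow_left₀ (by linarith) l2 B) (by
        rw [← hL]
        refine hz2.trans ?_
        rw [pow_mul]
        exact pow_le_pow_left₀ (by linarith) l1 E) X (hX.trans (Nat.mul_le_mul_right _ (by omega))) σ hσ G (fun n _ => hG n)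
    rw [← hL] at h3
    refine h3.trans ?_
    have hYr : (0 : ℝ) ≤ Y := Nat.cast_nonneg _
    apply div_le_div_of_nonneg_left hYr (by positivity)
    -- k ^ U ≤ (2 L) ^ U ≤ L ^ (2 U + 1)
    calc (k : ℝ) ^ U ≤ (2 * L) ^ U := pow_le_pow_left₀ hk0.le l3 U
      _ ≤ (L * L) ^ U := pow_le_pow_left₀ (by positivity) (by nlinarith) U
      _ = L ^ (2 * U) := by rw [← pow_two, ← pow_mul]
      _ ≤ L ^ (2 * U + 1) := pow_le_pow_right₀ (by linarith) (by omega)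

/-- **Nice functions**, one polynomial without constant term. -/
theorem one_niceF (b : ℕ) (hb : 2 ≤ b) (η : ℝ) (hη : 0 < η) (F : ℤ[X]) (hF1 : 1 ≤ F.natDegree) (hF0 : F.coeff 0 = 0)
    (f : ℕ → ℝ) (hf : Nice (fun n => ((f n : ℝ) : ℂ))) (F₀ U : ℕ) :
    ∃ K₀ : ℕ, ∀ k : ℕ, K₀ ≤ k →
    ∀ w : ℕ → ℕ → ℝ, Dig b η w → ∀ i : ℕ, ∀ σ : ℤ, (σ = 1 ∨ σ = -1) → ∀ X : ℕ, X ≤ F₀ * b ^ (F.natDegree * k) →
    ∀ G : ℕ → ℝ, (∀ n, |G n| ≤ 1) →
    ∑ c ∈ Icc 1 X, |∑ n ∈ range (b ^ k), P b w i k n * (G n * fx f (F.eval (n : ℤ) + σ * (c : ℤ)))| ≤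
      ((b ^ (F.natDegree * k) : ℕ) : ℝ) / (k : ℝ) ^ U := by
  rcases Nat.lt_or_ge F.natDegree 2 with h1 | h2
  · have hd : F.natDegree = 1 := by omega
    obtain ⟨β, hβ⟩ : ∃ β, β = F.coeff 1 := ⟨_, rfl⟩
    have hβ0 : β ≠ 0 := by
      rw [hβ, ← hd]
      apply Polynomial.leadingCoeff_ne_zero.2
      rintro rfl
      simp at hF1
    obtain ⟨K₀, hK₀⟩ := one_nice_lin b hb η hη β hβ0 f hf F₀ U
    refine ⟨K₀, fun k hk w hw i σ hσ X hX G hG => ?_⟩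
    rw [hd, one_mul] at hX ⊢
    have hev : ∀ n : ℕ, F.eval (n : ℤ) = β * (n : ℤ) := by
      intro n
      rw [Polynomial.eval_eq_sum_range, hd, sum_range_succ, sum_range_one, hF0, hβ]
      ring
    simp only [hev]
    exact hK₀ k hk w hw i σ hσ X hX G hG
  · obtain ⟨q, C₀, hq, hC₀, hmo⟩ := mo_int b hb η hη F h2
    obtain ⟨K1, hK1⟩ := OS.one_nice (ι := ℕ) q hq C₀ hC₀ f hf (hgt F) (F₀ + 1) 0 (2 * U + 1) (by omega)
    obtain ⟨K2, hK2⟩ := log_base b F.natDegree hb hF1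
    refine ⟨K1 + K2 + 4, fun k hk w hw i σ hσ X hX G hG => ?_⟩
    obtain ⟨l1, l2, l3⟩ := hK2 k (by omega)
    obtain ⟨Y, hY⟩ : ∃ Y, Y = b ^ (F.natDegree * k) := ⟨_, rfl⟩
    have hmo' := hmo k w hw i
    rw [← hY] at l1 l2 l3 hX hmo' ⊢
    obtain ⟨L, hL⟩ : ∃ L, L = Real.log Y := ⟨_, rfl⟩
    rw [← hL] at l1 l2 l3
    have hkr : (4 : ℝ) ≤ k := by exact_mod_cast (by omega : 4 ≤ k)
    have hk0 : (0 : ℝ) < k := by linarith
    have hL2 : 2 ≤ L := by linarith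
    have hY1 : 1 ≤ Y := by rw [hY]; exact Nat.one_le_pow _ _ (by omega)
    have hKY : K1 ≤ Y := by
      calc K1 ≤ k := by omega
        _ ≤ F.natDegree * k := Nat.le_mul_of_pos_left _ (by omega)
        _ ≤ Y := by rw [hY]; exact (Nat.lt_pow_self (by omega)).le
    have h3 := hK1 Y hKY Y (Nat.le_mul_of_pos_left _ (by omega)) (Nat.le_mul_of_pos_left _ (by omega)) (range (b ^ k)) _ _ hmo'
      (fun n => F.eval (n : ℤ)) (fun n _ => by simp) (fun n hn => by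
        have := eval_le_pow F b k n hb (mem_range.1 hn)
        rwa [← hY] at this) X (hX.trans (Nat.mul_le_mul_right _ (by omega))) σ hσ G (fun n _ => hG n)
    rw [← hL] at h3
    refine h3.trans ?_
    have hYr : (0 : ℝ) ≤ Y := Nat.cast_nonneg _
    apply div_le_div_of_nonneg_left hYr (by positivity)
    calc (k : ℝ) ^ U ≤ (2 * L) ^ U := pow_le_pow_left₀ hk0.le l3 U
      _ ≤ (L * L) ^ U := pow_le_pow_left₀ (by positivity) (by nlinarith) U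
      _ = L ^ (2 * U) := by rw [← pow_two, ← pow_mul]
      _ ≤ L ^ (2 * U + 1) := pow_le_pow_right₀ (by linarith) (by omega)

end Pool.Agent.HP25.RD
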