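import Pool.Agent.HP25.RD.A

set_option autoImplicit false

/-! Several polynomials of arbitrary degrees, arbitrary coefficients. -/

namespace Pool.Agent.HP25.RD
open Finset
open Pool.Agent.H807R2.Dav
open Pool.Agent.H373R2.T7
open Pool.Agent.W93.DG
open Pool.Agent.W93.LM (Nice)
open Pool.Agent.TH872.Sq
open Pool.Agent.HP25.PD
open scoped Polynomial

/-- logarithms of the ranges -/
lemma log_rg (b d F₁ : ℕ) (hb : 2 ≤ b) (hd : 1 ≤ d) (hF : 1 ≤ F₁) : ∃ K₀ : ℕ, ∀ k : ℕ, K₀ ≤ k →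
    (k : ℝ) ≤ Real.log ((F₁ * b ^ (2 * d * k) : ℕ) : ℝ) ∧ Real.log ((F₁ * b ^ (2 * d * k) : ℕ) : ℝ) ≤ (k : ℝ) ^ 2 := by
  have hb2 : (2 : ℝ) ≤ b := by exact_mod_cast hb
  have hd2 : (1 : ℝ) ≤ d := by exact_mod_cast hd
  have hF1 : (1 : ℝ) ≤ F₁ := by exact_mod_cast hF
  obtain ⟨K, hK⟩ := exists_nat_ge (Real.log F₁ + 2 * d * Real.log b + 1)
  refine ⟨K + 1, fun k hk => ?_⟩
  have hk1 : (1 : ℝ) ≤ k := by exact_mod_cast (by omega : 1 ≤ k)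
  have hkK : (K : ℝ) ≤ k := by exact_mod_cast (by omega : K ≤ k)
  have hlb : Real.log 2 ≤ Real.log b := Real.log_le_log (by norm_num) hb2
  have hl2 := Real.log_two_gt_d9
  have hlF : 0 ≤ Real.log F₁ := Real.log_nonneg hF1
  have e : Real.log ((F₁ * b ^ (2 * d * k) : ℕ) : ℝ) = Real.log F₁ + 2 * d * k * Real.log b := by
    push_cast
    rw [Real.log_mul (by positivity) (by positivity), Real.log_pow]
    push_cast
    ring
  rw [e]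
  constructor
  · have h1 : (1 : ℝ) ≤ 2 * d * Real.log b := by nlinarith
    have h2 : (k : ℝ) * 1 ≤ k * (2 * d * Real.log b) := mul_le_mul_of_nonneg_left h1 (by linarith)
    linarith
  · have h1 : Real.log F₁ + 2 * d * Real.log b ≤ k := by linarith
    have h2 : 0 ≤ 2 * d * Real.log b := by nlinarith
    nlinarith

/-- the contribution of the prime powers is small -/
lemma dev_small_d (b F₁ d U : ℕ) (hb : 2 ≤ b) (hF : 1 ≤ F₁) (hd : 1 ≤ d) : ∃ K₀ : ℕ, ∀ k : ℕ, K₀ ≤ k →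
    ∑ m ∈ Icc 1 (F₁ * b ^ (d * k)), (ArithmeticFunction.vonMangoldt m - th m) ≤ ((b ^ (d * k) : ℕ) : ℝ) / (k : ℝ) ^ U := by
  obtain ⟨K1, h1⟩ := log_rg b d F₁ hb hd hF
  have hbig : ∃ k2 : ℕ, ∀ k : ℕ, k2 ≤ k → 4 * (F₁ : ℝ) * (k : ℝ) ^ (2 * U + 4) ≤ (b : ℝ) ^ k := by
    have hlim := isLittleO_pow_const_const_pow_of_one_lt (R := ℝ) (2 * U + 4) (r := (b : ℝ)) (by exact_mod_cast (by omega : 1 < b))
    have hF0 : (0 : ℝ) < F₁ := by exact_mod_cast hF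
    have h2 := hlim.def (c := 1 / (4 * F₁)) (by positivity)
    rw [Filter.eventually_atTop] at h2
    obtain ⟨k2, hk2⟩ := h2
    refine ⟨k2, fun k hk => ?_⟩
    have h3 := hk2 k hk
    rw [Real.norm_of_nonneg (by positivity), Real.norm_of_nonneg (by positivity), one_div, inv_mul_eq_div, le_div_iff₀ (by positivity)] at h3
    linarith
  obtain ⟨K2, h2⟩ := hbig
  refine ⟨K1 + K2 + 1, fun k hk => ?_⟩
  have hkr : (1 : ℝ) ≤ k := by exact_mod_cast (by omega : 1 ≤ k)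
  have hk0 : (0 : ℝ) < k := by linarith
  obtain ⟨M, hM⟩ : ∃ M, M = b ^ (d * k) := ⟨_, rfl⟩
  rw [← hM]
  have hM1 : b ^ k ≤ M := by rw [hM]; exact Nat.pow_le_pow_right (by omega) (Nat.le_mul_of_pos_left _ hd)
  have hM2 : M ≤ b ^ (2 * d * k) := by
    rw [hM]
    exact Nat.pow_le_pow_right (by omega) (Nat.mul_le_mul_right _ (by omega))
  have hM0 : 1 ≤ M := le_trans (Nat.one_le_pow _ _ (by omega)) hM1
  have hMr : (0 : ℝ) < M := by exact_mod_cast hM0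
  have hFM : 1 ≤ F₁ * M := Nat.mul_pos hF hM0
  have hFMr : (1 : ℝ) ≤ ((F₁ * M : ℕ) : ℝ) := by exact_mod_cast hFM
  refine (dev_sum _ hFM).trans ?_
  have h3 : Real.log ((F₁ * M : ℕ) : ℝ) ≤ (k : ℝ) ^ 2 := by
    refine le_trans ?_ (h1 k (by omega)).2
    apply Real.log_le_log (by linarith)
    exact_mod_cast Nat.mul_le_mul_left _ hM2
  have h4 : 0 ≤ Real.log ((F₁ * M : ℕ) : ℝ) := Real.log_nonneg hFMr
  rw [← pow_le_pow_iff_left₀ (by positivity) (by positivity) (two_ne_zero)]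
  have h5 : 4 * (F₁ : ℝ) * (k : ℝ) ^ (2 * U + 4) ≤ M := (h2 k (by omega)).trans (by exact_mod_cast hM1)
  have h6 : (2 * Real.sqrt ((F₁ * M : ℕ) : ℝ) * Real.log ((F₁ * M : ℕ) : ℝ)) ^ 2 = 4 * ((F₁ * M : ℕ) : ℝ) * Real.log ((F₁ * M : ℕ) : ℝ) ^ 2 := by
    rw [mul_pow, mul_pow, Real.sq_sqrt (by linarith)]
    ring
  rw [h6, div_pow, ← pow_mul, le_div_iff₀ (by positivity)]
  have h7 : Real.log ((F₁ * M : ℕ) : ℝ) ^ 2 ≤ ((k : ℝ) ^ 2) ^ 2 := pow_le_pow_left₀ h4 h3 2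
  calc 4 * ((F₁ * M : ℕ) : ℝ) * Real.log ((F₁ * M : ℕ) : ℝ) ^ 2 * (k : ℝ) ^ (U * 2) ≤ 4 * ((F₁ * M : ℕ) : ℝ) * ((k : ℝ) ^ 2) ^ 2 * (k : ℝ) ^ (U * 2) := by
        gcongr
    _ = (4 * (F₁ : ℝ) * (k : ℝ) ^ (2 * U + 4)) * M := by push_cast; ring
    _ ≤ M * M := mul_le_mul_of_nonneg_right h5 hMr.le
    _ = _ := (sq _).symm

lemma hgt_pos (F : ℤ[X]) (h : F ≠ 0) : 1 ≤ hgt F := by
  unfold hgt
  have h1 : (F.coeff F.natDegree).natAbs ≤ ∑ i ∈ range (F.natDegree + 1), (F.coeff i).natAbs :=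
    single_le_sum (f := fun i => (F.coeff i).natAbs) (fun _ _ => Nat.zero_le _) (self_mem_range_succ _)
  have h2 : F.coeff F.natDegree ≠ 0 := Polynomial.leadingCoeff_ne_zero.2 h
  have := Int.natAbs_pos.2 h2
  omega

lemma ne_zero_of_deg {F : ℤ[X]} (h : 1 ≤ F.natDegree) : F ≠ 0 := by
  rintro rfl
  simp at h

/-- one shift for a function between the logarithm on the primes and the von Mangoldt function -/
theorem one_gF (b : ℕ) (hb : 2 ≤ b) (η : ℝ) (hη : 0 < η) (F : ℤ[X]) (hF1 : 1 ≤ F.natDegree) (hF0 : F.coeff 0 = 0) (f : ℕ → ℝ)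
    (hf : ∀ n, th n ≤ f n ∧ f n ≤ ArithmeticFunction.vonMangoldt n) (F₀ U : ℕ) :
    ∃ B : ℕ, ∀ E : ℕ, ∃ K₀ : ℕ, ∀ k : ℕ, K₀ ≤ k → ∀ z : ℕ, (k : ℝ) ^ B ≤ z → (z : ℝ) ≤ (k : ℝ) ^ E →
    ∀ w : ℕ → ℕ → ℝ, Dig b η w → ∀ i : ℕ, ∀ σ : ℤ, (σ = 1 ∨ σ = -1) → ∀ X : ℕ, X ≤ F₀ * b ^ (F.natDegree * k) →
    ∀ G : ℕ → ℝ, (∀ n, |G n| ≤ 1) →
    ∑ c ∈ Icc 1 X, |∑ n ∈ range (b ^ k), P b w i k n * (G n * (fx f (F.eval (n : ℤ) + σ * (c : ℤ)) - lamzI z (F.eval (n : ℤ) + σ * (c : ℤ))))| ≤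
      ((b ^ (F.natDegree * k) : ℕ) : ℝ) / (k : ℝ) ^ U := by
  obtain ⟨B, h1⟩ := one_vmF b hb η hη F hF1 hF0 F₀ (U + 1)
  have hrg : 1 ≤ rgF F F₀ := by
    have := hgt_pos F (ne_zero_of_deg hF1)
    unfold rgF
    omega
  obtain ⟨K1, h2⟩ := dev_small_d b (rgF F F₀) F.natDegree (U + 1) hb hrg hF1
  refine ⟨B, fun E => ?_⟩
  obtain ⟨K2, h3⟩ := h1 E
  refine ⟨K1 + K2 + 2, fun k hk z hz1 hz2 w hw i σ hσ X hX G hG => ?_⟩
  have hkr : (2 : ℝ) ≤ k := by exact_mod_cast (by omega : 2 ≤ k)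
  have hk0 : (0 : ℝ) < k := by linarith
  have h4 := h3 k (by omega) z hz1 hz2 w hw i σ hσ X hX G hG
  have h5 := h2 k (by omega)
  have hP := P_nonneg hw i k
  obtain ⟨h, hh⟩ : ∃ h : ℕ → ℝ, h = fun m => ArithmeticFunction.vonMangoldt m - th m := ⟨_, rfl⟩
  have hh0 : ∀ m, 0 ≤ h m := by intro m; rw [hh]; exact sub_nonneg.2 (th_le m)
  have hfx : ∀ x : ℤ, |lamI x - fx f x| ≤ fx h x := by
    intro x
    unfold lamI fx
    split_ifs with h6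
    · have h7 := hf x.toNat
      rw [hh, abs_of_nonneg (sub_nonneg.2 h7.2)]
      linarith
    · rw [sub_zero, abs_zero]
  have h6 : ∀ c ∈ Icc 1 X, |∑ n ∈ range (b ^ k), P b w i k n * (G n * (fx f (F.eval (n : ℤ) + σ * (c : ℤ)) - lamzI z (F.eval (n : ℤ) + σ * (c : ℤ))))| ≤
      |∑ n ∈ range (b ^ k), P b w i k n * (G n * (lamI (F.eval (n : ℤ) + σ * (c : ℤ)) - lamzI z (F.eval (n : ℤ) + σ * (c : ℤ))))| +
      ∑ n ∈ range (b ^ k), P b w i k n * fx h (F.eval (n : ℤ) + σ * (c : ℤ)) := by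
    intro c _
    have h7 : ∑ n ∈ range (b ^ k), P b w i k n * (G n * (fx f (F.eval (n : ℤ) + σ * (c : ℤ)) - lamzI z (F.eval (n : ℤ) + σ * (c : ℤ)))) =
        ∑ n ∈ range (b ^ k), P b w i k n * (G n * (lamI (F.eval (n : ℤ) + σ * (c : ℤ)) - lamzI z (F.eval (n : ℤ) + σ * (c : ℤ)))) -
        ∑ n ∈ range (b ^ k), P b w i k n * (G n * (lamI (F.eval (n : ℤ) + σ * (c : ℤ)) - fx f (F.eval (n : ℤ) + σ * (c : ℤ)))) := by
      rw [← sum_sub_distrib]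
      apply sum_congr rfl
      intro n _
      ring
    rw [h7]
    refine (abs_sub _ _).trans ?_
    apply add_le_add le_rfl
    refine (abs_sum_le_sum_abs _ _).trans ?_
    apply sum_le_sum
    intro n _
    rw [abs_mul, abs_of_nonneg (hP n)]
    apply mul_le_mul_of_nonneg_left _ (hP n)
    rw [abs_mul]
    calc |G n| * |lamI (F.eval (n : ℤ) + σ * (c : ℤ)) - fx f (F.eval (n : ℤ) + σ * (c : ℤ))| ≤ 1 * fx h (F.eval (n : ℤ) + σ * (c : ℤ)) :=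
          mul_le_mul (hG n) (hfx _) (abs_nonneg _) (by norm_num)
      _ = _ := one_mul _
  refine (sum_le_sum h6).trans ?_
  rw [sum_add_distrib]
  have h7 : ∑ c ∈ Icc 1 X, ∑ n ∈ range (b ^ k), P b w i k n * fx h (F.eval (n : ℤ) + σ * (c : ℤ)) ≤
      ((b ^ (F.natDegree * k) : ℕ) : ℝ) / (k : ℝ) ^ (U + 1) := by
    rw [sum_comm]
    have h8 : ∀ n ∈ range (b ^ k), ∑ c ∈ Icc 1 X, P b w i k n * fx h (F.eval (n : ℤ) + σ * (c : ℤ)) ≤
        P b w i k n * (((b ^ (F.natDegree * k) : ℕ) : ℝ) / (k : ℝ) ^ (U + 1)) := by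
      intro n hn
      rw [← mul_sum]
      apply mul_le_mul_of_nonneg_left _ (hP n)
      refine le_trans (shift_sum h hh0 (rgF F F₀ * b ^ (F.natDegree * k)) X (F.eval (n : ℤ)) σ hσ (fun c hc => ?_)) ?_
      · exact up_F F σ F₀ b k n c X hb hσ (mem_range.1 hn) (mem_Icc.1 hc).2 hX
      · rw [hh]
        exact h5
    refine (sum_le_sum h8).trans ?_
    rw [← sum_mul, P_sum (by omega) hw i k, one_mul]
  have h8 : ((b ^ (F.natDegree * k) : ℕ) : ℝ) / (k : ℝ) ^ (U + 1) + ((b ^ (F.natDegree * k) : ℕ) : ℝ) / (k : ℝ) ^ (U + 1) ≤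
      ((b ^ (F.natDegree * k) : ℕ) : ℝ) / (k : ℝ) ^ U := by
    rw [pow_succ, ← div_div]
    have h9 : 0 ≤ ((b ^ (F.natDegree * k) : ℕ) : ℝ) / (k : ℝ) ^ U := by positivity
    have h10 : ((b ^ (F.natDegree * k) : ℕ) : ℝ) / (k : ℝ) ^ U / k ≤ ((b ^ (F.natDegree * k) : ℕ) : ℝ) / (k : ℝ) ^ U / 2 :=
      div_le_div_of_nonneg_left h9 (by norm_num) hkr
    linarith
  linarith

/-- **Several polynomials, arbitrary coefficients.** -/
theorem tuple_F (b : ℕ) (hb : 2 ≤ b) (η : ℝ) (hη : 0 < η) (r : ℕ) (F : Fin r → ℤ[X]) (hF1 : ∀ j, 1 ≤ (F j).natDegree)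
    (hF0 : ∀ j, (F j).coeff 0 = 0)
    (T : Finset (Fin r)) (f : Fin r → ℕ → ℝ) (hfT : ∀ j ∈ T, Nice (fun n => ((f j n : ℝ) : ℂ)))
    (hfN : ∀ j, j ∉ T → ∀ n, th n ≤ f j n ∧ f j n ≤ ArithmeticFunction.vonMangoldt n) (F₀ U : ℕ) :
    ∃ B : ℕ, ∀ E : ℕ, ∃ K₀ : ℕ, ∀ k : ℕ, K₀ ≤ k → ∀ z : ℕ, (k : ℝ) ^ B ≤ z → (z : ℝ) ≤ (k : ℝ) ^ E →
    ∀ w : ℕ → ℕ → ℝ, Dig b η w → ∀ i : ℕ, ∀ σ : Fin r → ℤ, (∀ j, σ j = 1 ∨ σ j = -1) →
    ∀ X : Fin r → ℕ, (∀ j, b ^ ((F j).natDegree * k) ≤ X j ∧ X j ≤ F₀ * b ^ ((F j).natDegree * k)) →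
    ∀ G : ℕ → ℝ, (∀ n, |G n| ≤ 1) →
    ∑ c ∈ Fintype.piFinset (fun j : Fin r => Icc 1 (X j)), |∑ n ∈ range (b ^ k), P b w i k n *
      (G n * (∏ j, fx (f j) ((F j).eval (n : ℤ) + σ j * (c j : ℤ)) -
        ∏ j, (if j ∈ T then 0 else lamzI z ((F j).eval (n : ℤ) + σ j * (c j : ℤ)))))| ≤
      (∏ j, (X j : ℝ)) / (k : ℝ) ^ U := by
  classical
  have h1 : ∀ j, ∃ B : ℕ, ∀ E : ℕ, ∃ K₀ : ℕ, ∀ k : ℕ, K₀ ≤ k → ∀ z : ℕ, (k : ℝ) ^ B ≤ z → (z : ℝ) ≤ (k : ℝ) ^ E →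
      ∀ w : ℕ → ℕ → ℝ, Dig b η w → ∀ i : ℕ, ∀ σ : ℤ, (σ = 1 ∨ σ = -1) → ∀ X : ℕ, X ≤ F₀ * b ^ ((F j).natDegree * k) →
      ∀ G : ℕ → ℝ, (∀ n, |G n| ≤ 1) →
      ∑ c ∈ Icc 1 X, |∑ n ∈ range (b ^ k), P b w i k n * (G n * (fx (f j) ((F j).eval (n : ℤ) + σ * (c : ℤ)) -
        if j ∈ T then 0 else lamzI z ((F j).eval (n : ℤ) + σ * (c : ℤ))))| ≤
        ((b ^ ((F j).natDegree * k) : ℕ) : ℝ) / (k : ℝ) ^ (U + 2 * r + 1) := by
    intro j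
    by_cases hj : j ∈ T
    · obtain ⟨K₀, h2⟩ := one_niceF b hb η hη (F j) (hF1 j) (hF0 j) (f j) (hfT j hj) F₀ (U + 2 * r + 1)
      refine ⟨0, fun E => ⟨K₀, fun k hk z _ _ w hw i σ hσ X hX G hG => ?_⟩⟩
      simp only [if_pos hj, sub_zero]
      exact h2 k hk w hw i σ hσ X hX G hG
    · simp only [if_neg hj]
      exact one_gF b hb η hη (F j) (hF1 j) (hF0 j) (f j) (hfN j hj) F₀ (U + 2 * r + 1)
  choose B0 hB0 using h1
  refine ⟨univ.sup B0, fun E => ?_⟩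
  choose K0 hK0 using fun j => hB0 j E
  obtain ⟨F₁, hF₁⟩ : ∃ F₁ : ℕ, F₁ = 1 + univ.sup (fun j => rgF (F j) F₀) := ⟨_, rfl⟩
  obtain ⟨d, hd⟩ : ∃ d : ℕ, d = 1 + univ.sup (fun j => (F j).natDegree) := ⟨_, rfl⟩
  obtain ⟨K2, hK2⟩ := log_rg b d F₁ hb (by omega) (by omega)
  obtain ⟨N3, hN3⟩ := Vz_inv_small E
  refine ⟨univ.sup K0 + K2 + N3 + r + 2, fun k hk z hz1 hz2 w hw i σ hσ X hX G hG => ?_⟩
  obtain ⟨hl1, hl2⟩ := hK2 k (by omega)
  obtain ⟨N, hN⟩ : ∃ N, N = F₁ * b ^ (2 * d * k) := ⟨_, rfl⟩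
  rw [← hN] at hl1 hl2
  have hkN : k ≤ N := by
    rw [hN]
    calc k ≤ 2 * d * k := Nat.le_mul_of_pos_left _ (by omega)
      _ ≤ b ^ (2 * d * k) := (Nat.lt_pow_self (by omega)).le
      _ ≤ _ := Nat.le_mul_of_pos_left _ (by omega)
  have hk1 : (1 : ℝ) ≤ k := by exact_mod_cast (by omega : 1 ≤ k)
  have hk0 : (0 : ℝ) < k := by linarith
  have hX1' : ∀ j, 1 ≤ X j := fun j => le_trans (Nat.one_le_pow _ _ (by omega)) (hX j).1
  have hz : 1 ≤ z := by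
    have h1 : (1 : ℝ) ≤ (k : ℝ) ^ (univ.sup B0) := one_le_pow₀ hk1
    exact_mod_cast h1.trans hz1
  have hV : (Vz z)⁻¹ ≤ (k : ℝ) ^ 2 := (hN3 N (by omega) z hz (hz2.trans (pow_le_pow_left₀ hk0.le hl1 E))).trans hl2
  have hk2 : (1 : ℝ) ≤ (k : ℝ) ^ 2 := one_le_pow₀ hk1
  have hup : ∀ j, ∀ n ∈ range (b ^ k), ∀ v ∈ Icc 1 (X j), (((F j).eval (n : ℤ) + σ j * (v : ℤ) : ℤ) : ℝ) ≤ N := by
    intro j n hn v hv
    rw [mem_Icc] at hv
    have h1 := up_F (F j) (σ j) F₀ b k n v (X j) hb (hσ j) (mem_range.1 hn) hv.2 (hX j).2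
    have h4 : rgF (F j) F₀ ≤ univ.sup (fun j => rgF (F j) F₀) := le_sup (f := fun j => rgF (F j) F₀) (mem_univ j)
    have hd2 : (F j).natDegree ≤ univ.sup (fun j => (F j).natDegree) := le_sup (f := fun j => (F j).natDegree) (mem_univ j)
    have h5 : rgF (F j) F₀ * b ^ ((F j).natDegree * k) ≤ N := by
      rw [hN, hF₁]
      exact Nat.mul_le_mul (by omega) (Nat.pow_le_pow_right (by omega) (Nat.mul_le_mul_right _ (by omega)))
    have h6 : ((rgF (F j) F₀ * b ^ ((F j).natDegree * k) : ℕ) : ℤ) ≤ ((N : ℕ) : ℤ) := by exact_mod_cast h5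
    exact_mod_cast h1.trans h6
  have hbd : ∀ j, ∀ n ∈ range (b ^ k), ∀ v ∈ Icc 1 (X j), |fx (f j) ((F j).eval (n : ℤ) + σ j * (v : ℤ))| ≤ (k : ℝ) ^ 2 := by
    intro j n hn v hv
    by_cases hj : j ∈ T
    · refine le_trans ?_ hk2
      unfold fx
      split_ifs
      · have := (hfT j hj).1 ((F j).eval (n : ℤ) + σ j * (v : ℤ)).toNat
        rwa [Complex.norm_real, Real.norm_eq_abs] at this
      · rw [abs_zero]; exact zero_le_one
    · have h2 : fx (f j) ((F j).eval (n : ℤ) + σ j * (v : ℤ)) ≤ lamI ((F j).eval (n : ℤ) + σ j * (v : ℤ)) := by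
        unfold fx lamI
        split_ifs
        · exact (hfN j hj _).2
        · exact le_rfl
      have h3 : 0 ≤ fx (f j) ((F j).eval (n : ℤ) + σ j * (v : ℤ)) := by
        unfold fx
        split_ifs
        · exact (th_nonneg _).trans (hfN j hj _).1
        · exact le_rfl
      rw [abs_of_nonneg h3]
      exact h2.trans ((lamI_le _ N (by exact_mod_cast (by omega : 1 ≤ N)) (hup j n hn v hv)).trans hl2)
  have key := teleW (range (b ^ k)) (fun n => P b w i k n) X hX1'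
    (fun j n v => fx (f j) ((F j).eval (n : ℤ) + σ j * (v : ℤ))) (fun j n v => if j ∈ T then 0 else lamzI z ((F j).eval (n : ℤ) + σ j * (v : ℤ)))
    ((k : ℝ) ^ 2) (1 / (k : ℝ) ^ (U + 2 * r + 1)) hk2 (by positivity) hbd (by
      intro j n hn v hv
      split_ifs
      · rw [abs_zero]; positivity
      · rw [abs_of_nonneg (lamzI_nonneg _ _)]
        exact (lamzI_le z _).trans hV) (by
      intro j K hK G' hG'
      obtain ⟨G'', hG''⟩ : ∃ G'' : ℕ → ℝ, ∀ n, G'' n = if n ∈ range (b ^ k) then G' n / K else 0 := ⟨_, fun _ => rfl⟩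
      have hG''1 : ∀ n, |G'' n| ≤ 1 := by
        intro n
        rw [hG'']
        split_ifs with h
        · rw [abs_div, abs_of_pos hK, div_le_one hK]
          exact hG' n h
        · rw [abs_zero]; exact zero_le_one
      have h4 := hK0 j k (by have := le_sup (f := K0) (mem_univ j); omega) z
        (le_trans (pow_le_pow_right₀ hk1 (le_sup (f := B0) (mem_univ j))) hz1) hz2 w hw i (σ j) (hσ j) (X j) (hX j).2 G'' hG''1
      have h5 : ∑ v ∈ Icc 1 (X j), |∑ n ∈ range (b ^ k), P b w i k n * (G' n * (fx (f j) ((F j).eval (n : ℤ) + σ j * (v : ℤ)) -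
          if j ∈ T then 0 else lamzI z ((F j).eval (n : ℤ) + σ j * (v : ℤ))))| =
          K * ∑ v ∈ Icc 1 (X j), |∑ n ∈ range (b ^ k), P b w i k n * (G'' n * (fx (f j) ((F j).eval (n : ℤ) + σ j * (v : ℤ)) -
            if j ∈ T then 0 else lamzI z ((F j).eval (n : ℤ) + σ j * (v : ℤ))))| := by
        rw [mul_sum]
        apply sum_congr rfl
        intro v _
        have h6 : ∀ y : ℝ, K * |y| = |K * y| := fun y => by rw [abs_mul, abs_of_pos hK]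
        rw [h6, mul_sum]
        congr 1
        apply sum_congr rfl
        intro n hn
        rw [hG'', if_pos hn]
        field_simp
      rw [h5]
      apply mul_le_mul_of_nonneg_left _ hK.le
      refine h4.trans ?_
      rw [one_div, inv_mul_eq_div]
      apply div_le_div_of_nonneg_right _ (by positivity)
      exact_mod_cast (hX j).1)
    univ 1 one_pos (fun n _ => G n) (fun n _ m _ => hG n) (fun n m v i _ => rfl)
  refine key.trans ?_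
  rw [card_univ, Fintype.card_fin, one_mul]
  have hprod : 0 ≤ ∏ j, (X j : ℝ) := prod_nonneg fun j _ => Nat.cast_nonneg _
  calc (r : ℝ) * (((k : ℝ) ^ 2) ^ r * (1 / (k : ℝ) ^ (U + 2 * r + 1))) * ∏ j, (X j : ℝ)
      = (r / k) * ((∏ j, (X j : ℝ)) / (k : ℝ) ^ U) := by
        rw [← pow_mul, pow_succ, pow_add]
        field_simp
    _ ≤ 1 * ((∏ j, (X j : ℝ)) / (k : ℝ) ^ U) := by
        apply mul_le_mul_of_nonneg_right _ (by positivity)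
        rw [div_le_one hk0]
        exact_mod_cast (by omega : r ≤ k)
    _ = _ := one_mul _

end Pool.Agent.HP25.RD
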