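import Pool.Agent.HP25.RD.Eq

set_option autoImplicit false

/-! Almost all vectors of constant terms: integers with restricted digits, polynomials of arbitrary degrees. -/

namespace Pool.Agent.HP25.RD
open Finset
open Pool.Agent.H807R2.Dav
open Pool.Agent.H373R2.T7
open Pool.Agent.W93.DG
open Pool.Agent.TH872.Sq
open scoped Polynomial

/-- the predicted average over the integers with restricted digits -/
noncomputable def SgDF (b f : ℕ) (D : ℕ → Finset ℕ) (k : ℕ) {r : ℕ} (F : Fin r → ℤ[X]) (c : Fin r → ℤ) (z : ℕ) : ℝ :=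
  (Vz z)⁻¹ ^ r * ((((SD b D k).filter (fun n : ℕ => ∀ p ∈ f.primeFactors, ¬ ∃ j, (p : ℤ) ∣ (F j).eval (n : ℤ) + c j)).card : ℝ) / (SD b D k).card) *
    ∏ p ∈ (pz z).filter (fun p => ¬ p ∣ f), (1 - (nuF F c p : ℝ) / p)

lemma SgF_eq (b f : ℕ) (hb : 2 ≤ b) (D : ℕ → Finset ℕ) (k : ℕ) (hD : ∀ i < k, D i ⊆ range b ∧ 2 ≤ (D i).card) {r : ℕ}
    (F : Fin r → ℤ[X]) (c : Fin r → ℤ) (z : ℕ) :
    SgF b f (wD D k) 0 k F c z = SgDF b f D k F c z := by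
  classical
  unfold SgF SgDF
  congr 2
  have h1 := sum_wD b hb D k hD (fun n : ℕ => if ∀ p ∈ f.primeFactors, ¬ ∃ j, (p : ℤ) ∣ (F j).eval (n : ℤ) + c j then (1 : ℝ) else 0)
  rw [sum_boole] at h1
  rw [sum_filter]
  have h2 : ∑ n ∈ range (b ^ k), (if ∀ p ∈ f.primeFactors, ¬ ∃ j, (p : ℤ) ∣ (F j).eval (n : ℤ) + c j then P b (wD D k) 0 k n else 0) =
      ∑ n ∈ range (b ^ k), P b (wD D k) 0 k n * (if ∀ p ∈ f.primeFactors, ¬ ∃ j, (p : ℤ) ∣ (F j).eval (n : ℤ) + c j then (1 : ℝ) else 0) := by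
    apply sum_congr rfl
    intro n _
    split_ifs
    · rw [mul_one]
    · rw [mul_zero]
  rw [h2, h1]
  ring

/-- **Primes and their sieve model**, arbitrary coefficients, almost all vectors. -/
theorem main_subF (b : ℕ) (hb : 2 ≤ b) (r : ℕ) (F : Fin r → ℤ[X]) (hF1 : ∀ j, 1 ≤ (F j).natDegree) (hF0 : ∀ j, (F j).coeff 0 = 0)
    (F₀ U : ℕ) :
    ∃ B : ℕ, ∀ E : ℕ, ∃ K₀ : ℕ, ∀ k : ℕ, K₀ ≤ k → ∀ z : ℕ, (k : ℝ) ^ B ≤ z → (z : ℝ) ≤ (k : ℝ) ^ E →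
    ∀ D : ℕ → Finset ℕ, (∀ i < k, D i ⊆ range b ∧ 2 ≤ (D i).card) → ∀ σ : Fin r → ℤ, (∀ j, σ j = 1 ∨ σ j = -1) →
    ∀ X : Fin r → ℕ, (∀ j, b ^ ((F j).natDegree * k) ≤ X j ∧ X j ≤ F₀ * b ^ ((F j).natDegree * k)) →
    ∀ G : ℕ → ℝ, (∀ n, |G n| ≤ 1) →
    ∀ Q : (Fin r → ℕ) → Prop, [DecidablePred Q] →
    (∀ c ∈ Fintype.piFinset (fun j : Fin r => Icc 1 (X j)), Q c →
      1 / (k : ℝ) ^ U < |1 / ((SD b D k).card : ℝ) * ∑ n ∈ SD b D k, G n * (∏ j, fx th ((F j).eval (n : ℤ) + σ j * (c j : ℤ)) -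
        ∏ j, lamzI z ((F j).eval (n : ℤ) + σ j * (c j : ℤ)))|) →
    (((Fintype.piFinset (fun j : Fin r => Icc 1 (X j))).filter Q).card : ℝ) ≤ (∏ j, (X j : ℝ)) / (k : ℝ) ^ U := by
  classical
  obtain ⟨B, h1⟩ := tuple_F b hb (1 / 2) (by norm_num) r F hF1 hF0 ∅ (fun _ => th) (fun j hj => absurd hj (notMem_empty j)) (fun _ _ n => ⟨le_rfl, th_le n⟩) F₀ (2 * U)
  refine ⟨B, fun E => ?_⟩
  obtain ⟨K1, h2⟩ := h1 E
  refine ⟨K1 + 1, fun k hk z hz1 hz2 D hD σ hσ X hX G hG Q _ hQ => ?_⟩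
  have h4 := h2 k (by omega) z hz1 hz2 (wD D k) (dig_wD b hb D k hD) 0 σ hσ X hX G hG
  simp only [notMem_empty, if_false] at h4
  simp only [sum_wD b hb D k hD] at h4
  exact almost _ _ _ k U (by omega) h4 Q hQ

/-- **The asymptotic formula**, almost all vectors. -/
theorem main_vmF (b : ℕ) (hb : 2 ≤ b) (r : ℕ) (F : Fin r → ℤ[X]) (hF1 : ∀ j, 1 ≤ (F j).natDegree) (hF0 : ∀ j, (F j).coeff 0 = 0)
    (f : ℕ) (hf : 2 ≤ f) (γ : ℝ) (hγ0 : 0 ≤ γ) (hγ1 : γ < 1) (F₀ U : ℕ) :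
    ∃ B : ℕ, ∀ E : ℕ, ∃ K₀ : ℕ, ∀ k : ℕ, K₀ ≤ k → ∀ z : ℕ, (k : ℝ) ^ B ≤ z → (z : ℝ) ≤ (k : ℝ) ^ E →
    ∀ D : ℕ → Finset ℕ, (∀ i < k, D i ⊆ range b ∧ 2 ≤ (D i).card) → EquiP b f γ (wD D k) 0 k →
    ∀ σ : Fin r → ℤ, (∀ j, σ j = 1 ∨ σ j = -1) →
    ∀ X : Fin r → ℕ, (∀ j, b ^ ((F j).natDegree * k) ≤ X j ∧ X j ≤ F₀ * b ^ ((F j).natDegree * k)) →
    ∀ Q : (Fin r → ℕ) → Prop, [DecidablePred Q] →
    (∀ c ∈ Fintype.piFinset (fun j : Fin r => Icc 1 (X j)), Q c → (∀ j, ∀ n < b ^ k, 1 ≤ (F j).eval (n : ℤ) + σ j * (c j : ℤ)) ∧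
      1 / (k : ℝ) ^ U < |1 / ((SD b D k).card : ℝ) * ∑ n ∈ SD b D k, ∏ j, fx th ((F j).eval (n : ℤ) + σ j * (c j : ℤ)) -
        SgDF b f D k F (fun j => σ j * (c j : ℤ)) z|) →
    (((Fintype.piFinset (fun j : Fin r => Icc 1 (X j))).filter Q).card : ℝ) ≤ (∏ j, (X j : ℝ)) / (k : ℝ) ^ U := by
  classical
  obtain ⟨B, h1⟩ := main_subF b hb r F hF1 hF0 F₀ (U + 1)
  refine ⟨B + f, fun E => ?_⟩
  obtain ⟨K1, h2⟩ := h1 E
  obtain ⟨K2, h3⟩ := model_F b hb (1 / 2) f hf γ hγ0 hγ1 r F hF1 E (U + 1)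
  refine ⟨K1 + K2 + f + 4, fun k hk z hz1 hz2 D hD hEq σ hσ X hX Q _ hQ => ?_⟩
  have hk2 : (4 : ℝ) ≤ k := by exact_mod_cast (by omega : 4 ≤ k)
  have hk0 : (0 : ℝ) < k := by linarith
  have hk1 : (1 : ℝ) ≤ k := by linarith
  have hz1' : (k : ℝ) ^ B ≤ z := (pow_le_pow_right₀ hk1 (Nat.le_add_right B f)).trans hz1
  have hbz : f ≤ z := by
    have h4 : (k : ℝ) ≤ (k : ℝ) ^ (B + f) := le_self_pow₀ hk1 (by omega)
    have h5 : (k : ℝ) ≤ z := h4.trans hz1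
    have h6 : k ≤ z := by exact_mod_cast h5
    omega
  have h4 := h2 k (by omega) z hz1' hz2 D hD σ hσ X hX (fun _ => 1) (fun _ => by norm_num) Q (by
    intro c hc hQc
    obtain ⟨hpos, hlt⟩ := hQ c hc hQc
    have h6 := h3 k (by omega) z hbz hz2 (wD D k) (dig_wD b hb D k hD) 0 hEq (fun j => σ j * (c j : ℤ)) hpos
    rw [sum_wD b hb D k hD, SgF_eq b f hb D k hD] at h6
    simp only [one_mul]
    rw [sum_sub_distrib, mul_sub]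
    obtain ⟨x, hx⟩ : ∃ x, x = 1 / ((SD b D k).card : ℝ) * ∑ n ∈ SD b D k, ∏ j, fx th ((F j).eval (n : ℤ) + σ j * (c j : ℤ)) := ⟨_, rfl⟩
    obtain ⟨y, hy⟩ : ∃ y, y = 1 / ((SD b D k).card : ℝ) * ∑ n ∈ SD b D k, ∏ j, lamzI z ((F j).eval (n : ℤ) + σ j * (c j : ℤ)) := ⟨_, rfl⟩
    obtain ⟨s, hs⟩ : ∃ s, s = SgDF b f D k F (fun j => σ j * (c j : ℤ)) z := ⟨_, rfl⟩
    rw [← hx, ← hs] at hlt
    rw [← hy, ← hs] at h6
    rw [← hx, ← hy]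
    have h9 : 4 * (1 / (k : ℝ) ^ (U + 1)) ≤ 1 / (k : ℝ) ^ U := by
      rw [mul_one_div, div_le_div_iff₀ (by positivity) (by positivity), pow_succ]
      have : 0 < (k : ℝ) ^ U := by positivity
      nlinarith
    have h10 : 0 < 1 / (k : ℝ) ^ (U + 1) := by positivity
    have h11 : |x - s| ≤ |x - y| + |y - s| := abs_sub_le x y s
    linarith)
  refine h4.trans ?_
  apply div_le_div_of_nonneg_left (prod_nonneg fun j _ => Nat.cast_nonneg _) (by positivity)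
  exact pow_le_pow_right₀ hk1 (by omega)

lemma prod_lower1 (f z r : ℕ) (hr : 1 ≤ r) (Kp : ℕ) (hKp : Kp ≠ 0) (ν : ℕ → ℕ)
    (hν : ∀ p ∈ (pz z).filter (fun p => ¬ p ∣ f), ν p < p ∧ (¬ p ∣ Kp → ν p ≤ 2 * r)) :
    (1 / ((4 * r + Kp : ℕ) : ℝ)) ^ (4 * r + Kp) * Vz z ^ (4 * r) ≤ ∏ p ∈ (pz z).filter (fun p => ¬ p ∣ f), (1 - (ν p : ℝ) / p) := by
  classical
  have h1 := prod_lower 0 z r hr Kp hKp (fun p => if p ∣ f then 0 else ν p) (by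
    intro p hp
    rw [mem_filter] at hp
    split_ifs with h
    · exact ⟨hp.2, fun _ => Nat.zero_le _⟩
    · exact hν p (mem_filter.2 ⟨hp.1, h⟩))
  refine h1.trans (le_of_eq ?_)
  rw [prod_filter, prod_filter]
  apply prod_congr rfl
  intro p hp
  rw [mem_pz] at hp
  rw [if_pos hp.2.pos]
  by_cases h : p ∣ f
  · rw [if_pos h, if_neg (not_not.2 h)]
    simp
  · rw [if_neg h, if_pos h]

/-- the prediction is not small -/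
lemma SgDF_lower (b f : ℕ) (r : ℕ) (hr : 1 ≤ r) (F : Fin r → ℤ[X]) (hF1 : ∀ j, 1 ≤ (F j).natDegree) (d : ℕ)
    (hd : ∀ j, (F j).natDegree ≤ d) (E A : ℕ) : ∃ K₀ : ℕ, ∀ k : ℕ, K₀ ≤ k → ∀ z : ℕ, 1 ≤ z → (z : ℝ) ≤ (k : ℝ) ^ E →
    ∀ D : ℕ → Finset ℕ, (0 : ℝ) < (SD b D k).card → ∀ c : Fin r → ℤ, (∀ p : ℕ, p.Prime → ¬ p ∣ f → nuF F c p < p) →
      ((SD b D k).card : ℝ) / (k : ℝ) ^ A ≤
        (((SD b D k).filter (fun n : ℕ => ∀ p ∈ f.primeFactors, ¬ ∃ j, (p : ℤ) ∣ (F j).eval (n : ℤ) + c j)).card : ℝ) →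
      4 / (k : ℝ) ^ (A + 8 * (d * r) + 2) ≤ SgDF b f D k F c z := by
  classical
  have hd1 : 1 ≤ d := (hF1 ⟨0, hr⟩).trans (hd _)
  obtain ⟨N3, hN3⟩ := Vz_inv_small E
  obtain ⟨Kp, hKp⟩ : ∃ Kp : ℕ, Kp = ∏ j, ((F j).leadingCoeff).natAbs := ⟨_, rfl⟩
  have hKp0 : Kp ≠ 0 := by
    rw [hKp]
    exact prod_ne_zero_iff.2 fun j _ => Int.natAbs_ne_zero.2 (Polynomial.leadingCoeff_ne_zero.2 (ne_zero_of_deg (hF1 j)))
  obtain ⟨R, hR⟩ : ∃ R, R = 4 * (d * r) + Kp := ⟨_, rfl⟩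
  have hdr : 1 ≤ d * r := Nat.mul_pos hd1 hr
  obtain ⟨K5, hK5⟩ := log_rg 2 1 1 le_rfl le_rfl le_rfl
  refine ⟨N3 + K5 + R ^ R + 4, fun k hk z hz1 hz2 D hS0 c hnu hloc => ?_⟩
  obtain ⟨hl1, hl2⟩ := hK5 k (by omega)
  obtain ⟨N, hN⟩ : ∃ N, N = 1 * 2 ^ (2 * 1 * k) := ⟨_, rfl⟩
  rw [← hN] at hl1 hl2
  have hkN : k ≤ N := by
    rw [hN, one_mul]
    calc k ≤ 2 * 1 * k := by omega
      _ ≤ 2 ^ (2 * 1 * k) := (Nat.lt_pow_self (by omega)).le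
  have hk4 : (4 : ℝ) ≤ k := by exact_mod_cast (by omega : 4 ≤ k)
  have hk1 : (1 : ℝ) ≤ k := by linarith
  have hk0 : (0 : ℝ) < k := by linarith
  have hV : (Vz z)⁻¹ ≤ (k : ℝ) ^ 2 :=
    (hN3 N (by omega) z hz1 (hz2.trans (pow_le_pow_left₀ hk0.le hl1 E))).trans hl2
  have hVp := Vz_pos z
  have hV1 : 1 / (k : ℝ) ^ 2 ≤ Vz z := by
    rw [one_div]
    exact inv_le_of_inv_le₀ hVp hV
  have hVone : 1 ≤ (Vz z)⁻¹ := by
    rw [one_le_inv₀ hVp]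
    unfold Vz
    apply prod_le_one
    · intro p hp
      rw [mem_pz] at hp
      have : (2 : ℝ) ≤ p := by exact_mod_cast hp.2.two_le
      have h1 : 1 / (p : ℝ) ≤ 1 := by rw [div_le_one (by linarith)]; linarith
      linarith
    · intro p hp
      have : (0 : ℝ) ≤ 1 / (p : ℝ) := by positivity
      linarith
  unfold SgDF
  have h3 := prod_lower1 f z (d * r) hdr Kp hKp0 (nuF F c) (by
    intro p hp
    rw [mem_filter, mem_pz] at hp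
    refine ⟨hnu p hp.1.2 hp.2, fun hdp => ?_⟩
    have h4 : nuF F c p ≤ d * r := by
      apply nuF_le F c d hd p hp.1.2 hF1
      intro j hj
      apply hdp
      rw [hKp]
      exact (Int.natCast_dvd.1 hj).trans (dvd_prod_of_mem _ (mem_univ j))
    omega)
  rw [← hR] at h3
  have h4 : 1 / (k : ℝ) ≤ (1 / (R : ℝ)) ^ R := by
    rw [div_pow, one_pow]
    apply one_div_le_one_div_of_le
    · have : (0 : ℝ) < R := by exact_mod_cast (by omega : 0 < R)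
      positivity
    · exact_mod_cast (by omega : R ^ R ≤ k)
  have h5 : (1 / (k : ℝ) ^ 2) ^ (4 * (d * r)) ≤ Vz z ^ (4 * (d * r)) := pow_le_pow_left₀ (by positivity) hV1 _
  have h6 : 1 / (k : ℝ) * (1 / (k : ℝ) ^ 2) ^ (4 * (d * r)) ≤ ∏ p ∈ (pz z).filter (fun p => ¬ p ∣ f), (1 - (nuF F c p : ℝ) / p) :=
    (mul_le_mul h4 h5 (by positivity) (by positivity)).trans h3
  have h7 : 1 / (k : ℝ) ^ A ≤ ((((SD b D k).filter (fun n : ℕ => ∀ p ∈ f.primeFactors, ¬ ∃ j, (p : ℤ) ∣ (F j).eval (n : ℤ) + c j)).card : ℝ) / (SD b D k).card) := by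
    rw [le_div_iff₀ hS0, one_div, inv_mul_eq_div]
    exact hloc
  have h8 : (1 : ℝ) ≤ (Vz z)⁻¹ ^ r := one_le_pow₀ hVone
  calc 4 / (k : ℝ) ^ (A + 8 * (d * r) + 2) ≤ 1 * (1 / (k : ℝ) ^ A) * (1 / (k : ℝ) * (1 / (k : ℝ) ^ 2) ^ (4 * (d * r))) := by
        have h9 : 1 * (1 / (k : ℝ) ^ A) * (1 / (k : ℝ) * (1 / (k : ℝ) ^ 2) ^ (4 * (d * r))) = k / (k : ℝ) ^ (A + 8 * (d * r) + 2) := by
          rw [div_pow, one_pow, ← pow_mul, show 2 * (4 * (d * r)) = 8 * (d * r) by ring, pow_add, pow_add]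
          have := pow_pos hk0 A
          have := pow_pos hk0 (8 * (d * r))
          field_simp
        rw [h9]
        exact div_le_div_of_nonneg_right hk4 (by positivity)
    _ ≤ _ := by
        apply mul_le_mul _ h6 (by positivity) (by positivity)
        exact mul_le_mul h8 h7 (by positivity) (by positivity)

end Pool.Agent.HP25.RD
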