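import Pool.Agent.HP25.RD.D

set_option autoImplicit false

/-! Almost all vectors of constant terms in boxes around the origin. -/

namespace Pool.Agent.HP25.RD
open Finset
open Pool.Agent.H807R2.Dav
open Pool.Agent.H373R2.T7
open Pool.Agent.W93.DG
open Pool.Agent.TH872.Sq
open scoped Polynomial

open Classical in
/-- from vectors with positive coordinates to vectors in a box -/
lemma box_card {r : ℕ} (X : Fin r → ℕ) (M : ℕ) (hM : 1 ≤ M) (hX : ∀ j, M ≤ X j) (Q : (Fin r → ℤ) → Prop) (δ : ℝ)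
    (hQ : ∀ σ : Fin r → ℤ, (∀ j, σ j = 1 ∨ σ j = -1) →
      (((Fintype.piFinset (fun j : Fin r => Icc 1 (X j))).filter (fun c => Q (fun j => σ j * (c j : ℤ)))).card : ℝ) ≤ δ) :
    (((Fintype.piFinset (fun j : Fin r => Icc (-(X j : ℤ)) (X j))).filter Q).card : ℝ) ≤ 2 ^ r * δ + r * (3 ^ r * (∏ j, (X j : ℝ)) / M) := by
  have hMr : (0 : ℝ) < M := by exact_mod_cast hM
  obtain ⟨Sg, hSg⟩ : ∃ Sg : Finset (Fin r → ℤ), Sg = Fintype.piFinset (fun _ : Fin r => ({1, -1} : Finset ℤ)) := ⟨_, rfl⟩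
  have hSgc : Sg.card = 2 ^ r := by
    rw [hSg, Fintype.card_piFinset, prod_const, card_univ, Fintype.card_fin]
    rfl
  have hsub : (Fintype.piFinset (fun j : Fin r => Icc (-(X j : ℤ)) (X j))).filter Q ⊆
      (Sg.biUnion fun σ => ((Fintype.piFinset (fun j : Fin r => Icc 1 (X j))).filter (fun c => Q (fun j => σ j * (c j : ℤ)))).image
        (fun c => fun j => σ j * (c j : ℤ))) ∪
      univ.biUnion fun j : Fin r => Fintype.piFinset (fun i : Fin r => if i = j then {0} else Icc (-(X i : ℤ)) (X i)) := by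
    intro c hc
    rw [mem_filter, Fintype.mem_piFinset] at hc
    obtain ⟨h1, h2⟩ := hc
    rw [mem_union]
    by_cases h0 : ∀ j, c j ≠ 0
    · left
      rw [mem_biUnion]
      refine ⟨fun j => if 0 < c j then 1 else -1, ?_, ?_⟩
      · rw [hSg, Fintype.mem_piFinset]
        intro j
        split_ifs <;> simp
      · have e1 : (fun j => (if 0 < c j then (1 : ℤ) else -1) * ((c j).natAbs : ℤ)) = c := by
          funext j
          have := h0 j
          split_ifs with h <;> omega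
        rw [mem_image]
        refine ⟨fun j => (c j).natAbs, ?_, e1⟩
        rw [mem_filter, Fintype.mem_piFinset]
        refine ⟨fun j => ?_, ?_⟩
        · have h3 := mem_Icc.1 (h1 j)
          have := h0 j
          rw [mem_Icc]
          omega
        · rw [e1]
          exact h2
    · right
      push Not at h0
      obtain ⟨j, hj⟩ := h0
      rw [mem_biUnion]
      refine ⟨j, mem_univ j, ?_⟩
      rw [Fintype.mem_piFinset]
      intro i
      split_ifs with h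
      · rw [h, hj]; simp
      · exact h1 i
  have h1 := card_le_card hsub
  have h2 := h1.trans (card_union_le _ _)
  have h3 : (((Sg.biUnion fun σ => ((Fintype.piFinset (fun j : Fin r => Icc 1 (X j))).filter (fun c => Q (fun j => σ j * (c j : ℤ)))).image
        (fun c => fun j => σ j * (c j : ℤ))).card : ℕ) : ℝ) ≤ 2 ^ r * δ := by
    have h4 : ((Sg.biUnion fun σ => ((Fintype.piFinset (fun j : Fin r => Icc 1 (X j))).filter (fun c => Q (fun j => σ j * (c j : ℤ)))).image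
        (fun c => fun j => σ j * (c j : ℤ))).card : ℝ) ≤ ∑ σ ∈ Sg, δ := by
      refine le_trans (Nat.cast_le.2 card_biUnion_le) ?_
      push_cast
      apply sum_le_sum
      intro σ hσ
      refine le_trans (Nat.cast_le.2 card_image_le) (hQ σ fun j => ?_)
      rw [hSg, Fintype.mem_piFinset] at hσ
      have := hσ j
      simpa using this
    rw [sum_const, hSgc, nsmul_eq_mul] at h4
    push_cast at h4
    exact h4
  have h5 : (((univ.biUnion fun j : Fin r => Fintype.piFinset (fun i : Fin r => if i = j then ({0} : Finset ℤ) else Icc (-(X i : ℤ)) (X i))).card : ℕ) : ℝ) ≤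
      r * (3 ^ r * (∏ j, (X j : ℝ)) / M) := by
    have h6 : ∀ j : Fin r, ((Fintype.piFinset (fun i : Fin r => if i = j then ({0} : Finset ℤ) else Icc (-(X i : ℤ)) (X i))).card : ℝ) ≤
        3 ^ r * (∏ j, (X j : ℝ)) / M := by
      intro j
      rw [Fintype.card_piFinset]
      push_cast
      have h7 : ∀ i : Fin r, (((if i = j then ({0} : Finset ℤ) else Icc (-(X i : ℤ)) (X i)).card : ℕ) : ℝ) ≤
          3 * (X i : ℝ) * (if i = j then 1 / (M : ℝ) else 1) := by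
        intro i
        have hXi : (M : ℝ) ≤ X i := by exact_mod_cast hX i
        have hM1 : (1 : ℝ) ≤ M := by exact_mod_cast hM
        split_ifs
        · rw [card_singleton, mul_one_div, le_div_iff₀ hMr]
          push_cast
          linarith
        · rw [Int.card_Icc]
          have : ((X i : ℤ) + 1 - -(X i : ℤ)).toNat = 2 * X i + 1 := by omega
          rw [this]
          push_cast
          linarith
      refine (prod_le_prod (fun _ _ => Nat.cast_nonneg _) fun i _ => h7 i).trans (le_of_eq ?_)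
      rw [prod_mul_distrib, prod_mul_distrib, prod_const, card_univ, Fintype.card_fin, prod_ite_eq' univ j, if_pos (mem_univ j)]
      ring
    refine le_trans (Nat.cast_le.2 card_biUnion_le) ?_
    push_cast
    refine (sum_le_sum fun j _ => h6 j).trans (le_of_eq ?_)
    rw [sum_const, card_univ, Fintype.card_fin, nsmul_eq_mul]
  have h6 : (((Fintype.piFinset (fun j : Fin r => Icc (-(X j : ℤ)) (X j))).filter Q).card : ℝ) ≤
      (((Sg.biUnion fun σ => ((Fintype.piFinset (fun j : Fin r => Icc 1 (X j))).filter (fun c => Q (fun j => σ j * (c j : ℤ)))).image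
        (fun c => fun j => σ j * (c j : ℤ))).card : ℕ) : ℝ) +
      (((univ.biUnion fun j : Fin r => Fintype.piFinset (fun i : Fin r => if i = j then ({0} : Finset ℤ) else Icc (-(X i : ℤ)) (X i))).card : ℕ) : ℝ) := by
    exact_mod_cast h2
  linarith

/-- the box -/
noncomputable def Box (b : ℕ) {r : ℕ} (F : Fin r → ℤ[X]) (T k : ℕ) : Finset (Fin r → ℤ) :=
  Fintype.piFinset (fun j : Fin r => Icc (-((T * b ^ ((F j).natDegree * k) : ℕ) : ℤ)) ((T * b ^ ((F j).natDegree * k) : ℕ) : ℤ))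

/-- powers of `k` against powers of `b` -/
lemma pow_small (b V : ℕ) (hb : 2 ≤ b) : ∃ K₀ : ℕ, ∀ k : ℕ, K₀ ≤ k → (k : ℝ) ^ V ≤ (b : ℝ) ^ k := by
  have hlim := isLittleO_pow_const_const_pow_of_one_lt (R := ℝ) V (r := (b : ℝ)) (by exact_mod_cast (by omega : 1 < b))
  have h2 := hlim.def (c := 1) (by positivity)
  rw [Filter.eventually_atTop] at h2
  obtain ⟨k2, hk2⟩ := h2
  refine ⟨k2, fun k hk => ?_⟩
  have h3 := hk2 k hk
  rw [Real.norm_of_nonneg (by positivity), Real.norm_of_nonneg (by positivity), one_mul] at h3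
  exact h3

open Classical in
/-- the numerical part -/
lemma box_num (b : ℕ) (hb : 2 ≤ b) (r : ℕ) (F : Fin r → ℤ[X]) (hF1 : ∀ j, 1 ≤ (F j).natDegree) (T U : ℕ) (hT : 1 ≤ T) :
    ∃ K₀ : ℕ, ∀ k : ℕ, K₀ ≤ k → ∀ Q : (Fin r → ℤ) → Prop,
    (∀ σ : Fin r → ℤ, (∀ j, σ j = 1 ∨ σ j = -1) →
      (((Fintype.piFinset (fun j : Fin r => Icc 1 (T * b ^ ((F j).natDegree * k)))).filter (fun c => Q (fun j => σ j * (c j : ℤ)))).card : ℝ) ≤
        (∏ j, ((T * b ^ ((F j).natDegree * k) : ℕ) : ℝ)) / (k : ℝ) ^ (U + 1)) →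
    (((Box b F T k).filter Q).card : ℝ) ≤ (∏ j, (b : ℝ) ^ ((F j).natDegree * k)) / (k : ℝ) ^ U := by
  obtain ⟨K1, hK1⟩ := pow_small b (U + 1) hb
  obtain ⟨K2, hK2⟩ := exists_nat_ge ((2 : ℝ) ^ r * T ^ r + r * (3 ^ r * T ^ r))
  refine ⟨K1 + K2 + 1, fun k hk Q hQ => ?_⟩
  have hk0 : (0 : ℝ) < k := by exact_mod_cast (by omega : 0 < k)
  have h1 := box_card (fun j : Fin r => T * b ^ ((F j).natDegree * k)) (b ^ k) (Nat.one_le_pow _ _ (by omega)) (by
    intro j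
    calc b ^ k ≤ b ^ ((F j).natDegree * k) := Nat.pow_le_pow_right (by omega) (Nat.le_mul_of_pos_left _ (hF1 j))
      _ ≤ _ := Nat.le_mul_of_pos_left _ hT) Q _ hQ
  refine h1.trans ?_
  have e1 : ∏ j, ((T * b ^ ((F j).natDegree * k) : ℕ) : ℝ) = (T : ℝ) ^ r * ∏ j, (b : ℝ) ^ ((F j).natDegree * k) := by
    push_cast
    rw [prod_mul_distrib, prod_const, card_univ, Fintype.card_fin]
  rw [e1]
  obtain ⟨Pr, hPr⟩ : ∃ Pr : ℝ, Pr = ∏ j, (b : ℝ) ^ ((F j).natDegree * k) := ⟨_, rfl⟩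
  have hPr0 : 0 ≤ Pr := by rw [hPr]; positivity
  rw [← hPr]
  have h2 : (1 : ℝ) / (b ^ k : ℕ) ≤ 1 / (k : ℝ) ^ (U + 1) := by
    apply one_div_le_one_div_of_le (by positivity)
    push_cast
    exact hK1 k (by omega)
  have h3 : (r : ℝ) * (3 ^ r * ((T : ℝ) ^ r * Pr) / (b ^ k : ℕ)) ≤ (r * (3 ^ r * T ^ r)) * (Pr / (k : ℝ) ^ (U + 1)) := by
    calc (r : ℝ) * (3 ^ r * ((T : ℝ) ^ r * Pr) / (b ^ k : ℕ)) = (r * (3 ^ r * T ^ r) * Pr) * (1 / (b ^ k : ℕ)) := by ring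
      _ ≤ (r * (3 ^ r * T ^ r) * Pr) * (1 / (k : ℝ) ^ (U + 1)) := mul_le_mul_of_nonneg_left h2 (by positivity)
      _ = _ := by ring
  have h4 : (2 : ℝ) ^ r * ((T : ℝ) ^ r * Pr / (k : ℝ) ^ (U + 1)) = (2 ^ r * T ^ r) * (Pr / (k : ℝ) ^ (U + 1)) := by ring
  rw [h4]
  have h5 : 0 ≤ Pr / (k : ℝ) ^ (U + 1) := by positivity
  have h6 : ((2 : ℝ) ^ r * T ^ r + r * (3 ^ r * T ^ r)) * (Pr / (k : ℝ) ^ (U + 1)) ≤ k * (Pr / (k : ℝ) ^ (U + 1)) := by
    apply mul_le_mul_of_nonneg_right _ h5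
    refine hK2.trans ?_
    exact_mod_cast (by omega : K2 ≤ k)
  have h7 : k * (Pr / (k : ℝ) ^ (U + 1)) = Pr / (k : ℝ) ^ U := by
    rw [pow_succ]
    field_simp
  linarith

open Classical in
/-- **Primes and their sieve model in the box.** -/
theorem sub_box (b : ℕ) (hb : 2 ≤ b) (r : ℕ) (F : Fin r → ℤ[X]) (hF1 : ∀ j, 1 ≤ (F j).natDegree) (hF0 : ∀ j, (F j).coeff 0 = 0)
    (T U : ℕ) (hT : 1 ≤ T) : ∃ B : ℕ, ∀ E : ℕ, ∃ K₀ : ℕ, ∀ k : ℕ, K₀ ≤ k → ∀ z : ℕ, (k : ℝ) ^ B ≤ z → (z : ℝ) ≤ (k : ℝ) ^ E →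
    ∀ D : ℕ → Finset ℕ, (∀ i < k, D i ⊆ range b ∧ 2 ≤ (D i).card) → ∀ G : ℕ → ℝ, (∀ n, |G n| ≤ 1) →
    ∀ Q : (Fin r → ℤ) → Prop, (∀ c, Q c → 1 / (k : ℝ) ^ U < |1 / ((SD b D k).card : ℝ) * ∑ n ∈ SD b D k,
      G n * (∏ j, fx th ((F j).eval (n : ℤ) + c j) - ∏ j, lamzI z ((F j).eval (n : ℤ) + c j))|) →
    (((Box b F T k).filter Q).card : ℝ) ≤ (∏ j, (b : ℝ) ^ ((F j).natDegree * k)) / (k : ℝ) ^ U := by
  obtain ⟨B, h1⟩ := main_subF b hb r F hF1 hF0 T (U + 1)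
  refine ⟨B, fun E => ?_⟩
  obtain ⟨K1, h2⟩ := h1 E
  obtain ⟨K2, h3⟩ := box_num b hb r F hF1 T U hT
  refine ⟨K1 + K2 + 1, fun k hk z hz1 hz2 D hD G hG Q hQ => ?_⟩
  have hk1 : (1 : ℝ) ≤ k := by exact_mod_cast (by omega : 1 ≤ k)
  apply h3 k (by omega)
  intro σ hσ
  have h4 := h2 k (by omega) z hz1 hz2 D hD σ hσ (fun j => T * b ^ ((F j).natDegree * k)) (fun j => ⟨Nat.le_mul_of_pos_left _ hT, le_rfl⟩)
    G hG (fun c => Q (fun j => σ j * (c j : ℤ))) (by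
      intro c _ hc
      refine lt_of_le_of_lt ?_ (hQ _ hc)
      apply one_div_le_one_div_of_le (by positivity)
      exact pow_le_pow_right₀ hk1 (by omega))
  exact h4

open Classical in
/-- **The asymptotic formula in the box.** -/
theorem asym_box (b : ℕ) (hb : 2 ≤ b) (r : ℕ) (F : Fin r → ℤ[X]) (hF1 : ∀ j, 1 ≤ (F j).natDegree) (hF0 : ∀ j, (F j).coeff 0 = 0)
    (f : ℕ) (hf : 2 ≤ f) (γ : ℝ) (hγ0 : 0 ≤ γ) (hγ1 : γ < 1)
    (T U : ℕ) (hT : 1 ≤ T) : ∃ B : ℕ, ∀ E : ℕ, ∃ K₀ : ℕ, ∀ k : ℕ, K₀ ≤ k → ∀ z : ℕ, (k : ℝ) ^ B ≤ z → (z : ℝ) ≤ (k : ℝ) ^ E →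
    ∀ D : ℕ → Finset ℕ, (∀ i < k, D i ⊆ range b ∧ 2 ≤ (D i).card) → EquiP b f γ (wD D k) 0 k →
    ∀ Q : (Fin r → ℤ) → Prop, (∀ c, Q c → (∀ j, ∀ n < b ^ k, 1 ≤ (F j).eval (n : ℤ) + c j) ∧
      1 / (k : ℝ) ^ U < |1 / ((SD b D k).card : ℝ) * ∑ n ∈ SD b D k, ∏ j, fx th ((F j).eval (n : ℤ) + c j) - SgDF b f D k F c z|) →
    (((Box b F T k).filter Q).card : ℝ) ≤ (∏ j, (b : ℝ) ^ ((F j).natDegree * k)) / (k : ℝ) ^ U := by
  obtain ⟨B, h1⟩ := main_vmF b hb r F hF1 hF0 f hf γ hγ0 hγ1 T (U + 1)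
  refine ⟨B, fun E => ?_⟩
  obtain ⟨K1, h2⟩ := h1 E
  obtain ⟨K2, h3⟩ := box_num b hb r F hF1 T U hT
  refine ⟨K1 + K2 + 1, fun k hk z hz1 hz2 D hD hEq Q hQ => ?_⟩
  have hk1 : (1 : ℝ) ≤ k := by exact_mod_cast (by omega : 1 ≤ k)
  apply h3 k (by omega)
  intro σ hσ
  have h4 := h2 k (by omega) z hz1 hz2 D hD hEq σ hσ (fun j => T * b ^ ((F j).natDegree * k)) (fun j => ⟨Nat.le_mul_of_pos_left _ hT, le_rfl⟩)
    (fun c => Q (fun j => σ j * (c j : ℤ))) (by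
      intro c _ hc
      obtain ⟨hc1, hc2⟩ := hQ _ hc
      refine ⟨hc1, lt_of_le_of_lt ?_ hc2⟩
      apply one_div_le_one_div_of_le (by positivity)
      exact pow_le_pow_right₀ hk1 (by omega))
  exact h4

open Classical in
/-- from the average to the number of the arguments with prime values -/
lemma count_lower (b : ℕ) (hb : 2 ≤ b) (r : ℕ) (F : Fin r → ℤ[X]) (T : ℕ) : ∃ K₀ : ℕ, ∀ k : ℕ, K₀ ≤ k →
    ∀ D : ℕ → Finset ℕ, ∀ c ∈ Box b F T k, ∀ δ : ℝ, (0 : ℝ) < (SD b D k).card →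
    δ ≤ 1 / ((SD b D k).card : ℝ) * ∑ n ∈ SD b D k, ∏ j, fx th ((F j).eval (n : ℤ) + c j) →
    δ * (SD b D k).card ≤ (((SD b D k).filter (fun n : ℕ => ∀ j, ((F j).eval (n : ℤ) + c j).toNat.Prime)).card : ℝ) * (k : ℝ) ^ (2 * r) := by
  obtain ⟨d, hd⟩ : ∃ d : ℕ, d = 1 + univ.sup (fun j => (F j).natDegree) := ⟨_, rfl⟩
  obtain ⟨F₁, hF₁⟩ : ∃ F₁ : ℕ, F₁ = 1 + univ.sup (fun j => rgF (F j) T) := ⟨_, rfl⟩
  obtain ⟨K2, hK2⟩ := log_rg b d F₁ hb (by omega) (by omega)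
  refine ⟨K2 + 1, fun k hk D c hc δ hS0 hδ => ?_⟩
  obtain ⟨hl1, hl2⟩ := hK2 k (by omega)
  obtain ⟨N, hN⟩ : ∃ N, N = F₁ * b ^ (2 * d * k) := ⟨_, rfl⟩
  rw [← hN] at hl1 hl2
  have hN1 : 1 ≤ N := by rw [hN]; exact Nat.mul_pos (by omega) (Nat.pow_pos (by omega))
  have hk1 : (1 : ℝ) ≤ k := by exact_mod_cast (by omega : 1 ≤ k)
  obtain ⟨S, hS⟩ : ∃ S, S = SD b D k := ⟨_, rfl⟩
  rw [← hS] at hS0 hδ ⊢
  unfold Box at hc
  rw [Fintype.mem_piFinset] at hc
  have hup : ∀ j, ∀ n ∈ S, fx th ((F j).eval (n : ℤ) + c j) ≤ (k : ℝ) ^ 2 := by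
    intro j n hn
    rw [hS] at hn
    unfold SD at hn
    rw [mem_filter] at hn
    have h1 := (abs_le.1 (eval_le_pow (F j) b k n hb (mem_range.1 hn.1))).2
    have h2 := (mem_Icc.1 (hc j)).2
    have h4 : rgF (F j) T ≤ univ.sup (fun j => rgF (F j) T) := le_sup (f := fun j => rgF (F j) T) (mem_univ j)
    have hd2 : (F j).natDegree ≤ univ.sup (fun j => (F j).natDegree) := le_sup (f := fun j => (F j).natDegree) (mem_univ j)
    have h5 : rgF (F j) T * b ^ ((F j).natDegree * k) ≤ N := by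
      rw [hN, hF₁]
      exact Nat.mul_le_mul (by omega) (Nat.pow_le_pow_right (by omega) (Nat.mul_le_mul_right _ (by omega)))
    have h6 : ((rgF (F j) T * b ^ ((F j).natDegree * k) : ℕ) : ℤ) ≤ ((N : ℕ) : ℤ) := by exact_mod_cast h5
    have h7 : (F j).eval (n : ℤ) + c j ≤ ((N : ℕ) : ℤ) := by
      refine le_trans ?_ h6
      unfold rgF
      push_cast at h1 h2 ⊢
      linarith
    refine le_trans ?_ ((lamI_le _ N (by exact_mod_cast hN1) (by exact_mod_cast h7)).trans hl2)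
    unfold fx lamI
    split_ifs
    · exact th_le _
    · exact le_rfl
  have hnn : ∀ x : ℤ, 0 ≤ fx th x := by
    intro x
    unfold fx
    split_ifs
    · exact th_nonneg _
    · exact le_rfl
  have hsum : ∑ n ∈ S, ∏ j, fx th ((F j).eval (n : ℤ) + c j) ≤
      ((S.filter (fun n : ℕ => ∀ j, ((F j).eval (n : ℤ) + c j).toNat.Prime)).card : ℝ) * (k : ℝ) ^ (2 * r) := by
    have h3 : ∀ n ∈ S, ∏ j, fx th ((F j).eval (n : ℤ) + c j) ≤
        if ∀ j, ((F j).eval (n : ℤ) + c j).toNat.Prime then (k : ℝ) ^ (2 * r) else 0 := by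
      intro n hn
      by_cases h4 : ∀ j, ((F j).eval (n : ℤ) + c j).toNat.Prime
      · rw [if_pos h4]
        calc ∏ j, fx th ((F j).eval (n : ℤ) + c j) ≤ ∏ _j : Fin r, (k : ℝ) ^ 2 :=
              prod_le_prod (fun j _ => hnn _) fun j _ => hup j n hn
          _ = _ := by rw [prod_const, card_univ, Fintype.card_fin, ← pow_mul]
      · rw [if_neg h4]
        push Not at h4
        obtain ⟨j, hj⟩ := h4
        apply le_of_eq
        apply prod_eq_zero (mem_univ j)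
        unfold fx th
        split_ifs <;> rfl
    refine (sum_le_sum h3).trans (le_of_eq ?_)
    rw [← sum_filter, sum_const, nsmul_eq_mul]
  refine le_trans ?_ hsum
  have h4 := mul_le_mul_of_nonneg_right hδ hS0.le
  refine h4.trans (le_of_eq ?_)
  field_simp

end Pool.Agent.HP25.RD
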