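import Pool.Agent.HP25.RD.C

set_option autoImplicit false

/-! Distribution in residue classes of the integers with random digits, two consecutive digits at every place. -/

namespace Pool.Agent.HP25.RD
open Finset
open Pool.Agent.H807R2.Dav
open Pool.Agent.H373R2.T7
open Pool.Agent.TH872.Sq
open Pool.Agent.W93.RD (cos_dist)

/-- two consecutive digits have probabilities at least `η` at every place -/
def Cons (b : ℕ) (η : ℝ) (w : ℕ → ℕ → ℝ) : Prop := ∀ i, ∃ a, a + 1 < b ∧ η ≤ w i a ∧ η ≤ w i (a + 1)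

/-- the saving for one digit -/
noncomputable def g1 (b : ℕ) (η : ℝ) : ℝ := 1 - η / (b : ℝ) ^ 2

lemma g1_bounds {b : ℕ} (hb : 2 ≤ b) {η : ℝ} (hη : 0 < η) (hη1 : η ≤ 1) : 0 ≤ g1 b η ∧ g1 b η < 1 := by
  have hb2 : (2 : ℝ) ≤ b := by exact_mod_cast hb
  unfold g1
  constructor
  · have h1 : η / (b : ℝ) ^ 2 ≤ 1 := by
      rw [div_le_one (by positivity)]
      nlinarith
    linarith
  · have : 0 < η / (b : ℝ) ^ 2 := by positivity
    linarith

lemma digit_two {b : ℕ} (hb : 2 ≤ b) {η : ℝ} (hη : 0 < η) {w : ℕ → ℕ → ℝ} (hw : Dig b η w) (hc : Cons b η w) (i : ℕ) (y : ℝ) :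
    ‖∑ a ∈ range b, ((w i a : ℝ) : ℂ) * ee (a * y)‖ ≤ gg b (g1 b η) y := by
  have hw0 := hw.nonneg i
  have htriv : ∀ s : Finset ℕ, ‖∑ a ∈ s, ((w i a : ℝ) : ℂ) * ee (a * y)‖ ≤ ∑ a ∈ s, w i a := by
    intro s
    refine (norm_sum_le _ _).trans ?_
    apply sum_le_sum
    intro a _
    rw [norm_mul, norm_ee, mul_one, Complex.norm_real, Real.norm_of_nonneg (hw0 a)]
  unfold gg
  split_ifs with h
  swap
  · rw [← hw.sum i]
    exact htriv _
  obtain ⟨a₁, ha, h1, h2⟩ := hc i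
  obtain ⟨a₂, ha₂⟩ : ∃ a₂, a₂ = a₁ + 1 := ⟨_, rfl⟩
  rw [← ha₂] at h2 ha
  have hm1 : a₁ ∈ range b := mem_range.2 (by omega)
  have hm2 : a₂ ∈ (range b).erase a₁ := mem_erase.2 ⟨by omega, mem_range.2 (by omega)⟩
  have hb0 : (0 : ℝ) < b := by exact_mod_cast (by omega : 0 < b)
  have hsplit : ∑ a ∈ range b, ((w i a : ℝ) : ℂ) * ee (a * y) = ((w i a₁ : ℝ) : ℂ) * ee (a₁ * y) + (((w i a₂ : ℝ) : ℂ) * ee (a₂ * y) +
      ∑ a ∈ ((range b).erase a₁).erase a₂, ((w i a : ℝ) : ℂ) * ee (a * y)) := by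
    rw [add_sum_erase _ (fun a : ℕ => ((w i a : ℝ) : ℂ) * ee (a * y)) hm2, add_sum_erase _ (fun a : ℕ => ((w i a : ℝ) : ℂ) * ee (a * y)) hm1]
  have hsplitr : ∑ a ∈ range b, w i a = w i a₁ + (w i a₂ + ∑ a ∈ ((range b).erase a₁).erase a₂, w i a) := by
    rw [add_sum_erase _ (w i) hm2, add_sum_erase _ (w i) hm1]
  rw [hw.sum i] at hsplitr
  have hpair : ‖ee (a₁ * y) + ee (a₂ * y)‖ ≤ 2 - 4 * (1 / (2 * (b : ℝ))) ^ 2 := by
    have e1 : ee (a₁ * y) + ee (a₂ * y) = ee (a₁ * y) * (1 + ee y) := by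
      rw [mul_add, mul_one, ← ee_add]
      congr 2
      rw [ha₂]
      push_cast
      ring
    rw [e1, norm_mul, norm_ee, one_mul]
    apply cos_dist _ _ (by positivity)
    intro n
    exact h.trans (nn_le _ n)
  have e2 : ((w i a₁ : ℝ) : ℂ) * ee (a₁ * y) + (((w i a₂ : ℝ) : ℂ) * ee (a₂ * y) +
      ∑ a ∈ ((range b).erase a₁).erase a₂, ((w i a : ℝ) : ℂ) * ee (a * y)) =
      ((η : ℝ) : ℂ) * (ee (a₁ * y) + ee (a₂ * y)) + (((w i a₁ - η : ℝ) : ℂ) * ee (a₁ * y) + (((w i a₂ - η : ℝ) : ℂ) * ee (a₂ * y) +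
      ∑ a ∈ ((range b).erase a₁).erase a₂, ((w i a : ℝ) : ℂ) * ee (a * y))) := by
    push_cast
    ring
  rw [hsplit, e2]
  have n1 : ‖((η : ℝ) : ℂ) * (ee (a₁ * y) + ee (a₂ * y))‖ ≤ η * (2 - 4 * (1 / (2 * (b : ℝ))) ^ 2) := by
    rw [norm_mul, Complex.norm_real, Real.norm_of_nonneg hη.le]
    exact mul_le_mul_of_nonneg_left hpair hη.le
  have n2 : ‖((w i a₁ - η : ℝ) : ℂ) * ee (a₁ * y)‖ ≤ w i a₁ - η := by
    rw [norm_mul, norm_ee, mul_one, Complex.norm_real, Real.norm_of_nonneg (by linarith)]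
  have n3 : ‖((w i a₂ - η : ℝ) : ℂ) * ee (a₂ * y)‖ ≤ w i a₂ - η := by
    rw [norm_mul, norm_ee, mul_one, Complex.norm_real, Real.norm_of_nonneg (by linarith)]
  have n4 := htriv (((range b).erase a₁).erase a₂)
  have n5 := norm_add_le (((η : ℝ) : ℂ) * (ee (a₁ * y) + ee (a₂ * y))) (((w i a₁ - η : ℝ) : ℂ) * ee (a₁ * y) + (((w i a₂ - η : ℝ) : ℂ) * ee (a₂ * y) +
      ∑ a ∈ ((range b).erase a₁).erase a₂, ((w i a : ℝ) : ℂ) * ee (a * y)))
  have n6 := norm_add_le (((w i a₁ - η : ℝ) : ℂ) * ee (a₁ * y)) (((w i a₂ - η : ℝ) : ℂ) * ee (a₂ * y) +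
      ∑ a ∈ ((range b).erase a₁).erase a₂, ((w i a : ℝ) : ℂ) * ee (a * y))
  have n7 := norm_add_le (((w i a₂ - η : ℝ) : ℂ) * ee (a₂ * y)) (∑ a ∈ ((range b).erase a₁).erase a₂, ((w i a : ℝ) : ℂ) * ee (a * y))
  have e3 : g1 b η = 1 - η * (4 * (1 / (2 * (b : ℝ))) ^ 2) := by
    unfold g1
    field_simp
    ring
  rw [e3]
  nlinarith

lemma char_bound1 {b : ℕ} (hb : 2 ≤ b) {η : ℝ} (hη : 0 < η) {w : ℕ → ℕ → ℝ} (hw : Dig b η w) (hc : Cons b η w) (i m : ℕ) (t : ℝ) :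
    ‖∑ n ∈ range (b ^ m), ((P b w i m n : ℝ) : ℂ) * ee (n * t)‖ ≤ ∏ j ∈ range m, gg b (g1 b η) ((b : ℝ) ^ j * t) := by
  rw [ex_char b (by omega), norm_prod]
  exact prod_le_prod (fun _ _ => norm_nonneg _) fun j _ => digit_two hb hη hw hc (i + j) _

/-- the characteristic function at rational points -/
lemma char_rat1 {b : ℕ} (hb : 2 ≤ b) {η : ℝ} (hη : 0 < η) {w : ℕ → ℕ → ℝ} (hw : Dig b η w) (hc : Cons b η w) (i k m H q : ℕ)
    (hq : Nat.Coprime q b) (hqm : q ≤ b ^ m) (hk : H * (m + 1) + 1 ≤ k) (h j : ℕ) (hh : ¬ q ∣ h) :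
    ‖∑ n ∈ range (b ^ k), ((P b w i k n : ℝ) : ℂ) * ee (n * ((h : ℝ) / q + (j : ℝ) / b))‖ ≤ (g1 b η) ^ H := by
  obtain ⟨hg0, hg1⟩ := g1_bounds hb hη (eta_le hw)
  refine (char_bound1 hb hη hw hc i k _).trans ?_
  have hq0 : q ≠ 0 := by
    intro h0
    rw [h0, Nat.coprime_zero_left] at hq
    omega
  have hqr : (0 : ℝ) < q := by exact_mod_cast Nat.pos_of_ne_zero hq0
  have hb0 : (0 : ℝ) < b := by exact_mod_cast (by omega : 0 < b)
  obtain ⟨k', rfl⟩ : ∃ k', k = k' + 1 := ⟨k - 1, by omega⟩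
  rw [prod_range_succ']
  have h1 : gg b (g1 b η) ((b : ℝ) ^ 0 * ((h : ℝ) / q + (j : ℝ) / b)) ≤ 1 := gg_le_one _ _ _ hg1.le
  have h2 : ∏ s ∈ range k', gg b (g1 b η) ((b : ℝ) ^ (s + 1) * ((h : ℝ) / q + (j : ℝ) / b)) ≤ (g1 b η) ^ H := by
    have e1 : ∀ s ∈ range k', gg b (g1 b η) ((b : ℝ) ^ (s + 1) * ((h : ℝ) / q + (j : ℝ) / b)) =
        gg b (g1 b η) ((b : ℝ) ^ s * (b * ((h : ℝ) / q + (j : ℝ) / b))) := by
      intro s _
      congr 1
      ring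
    rw [prod_congr rfl e1]
    apply gg_decay b hb _ hg0 hg1.le _ m (1 / q) _ _ H k' (by omega)
    · rw [one_div, inv_mul_eq_div, le_div_iff₀ hqr, one_mul]
      exact_mod_cast hqm
    · intro s
      have h1 : (b : ℝ) ^ s * (b * ((h : ℝ) / q + (j : ℝ) / b)) = ((b ^ (s + 1) * h : ℕ) : ℝ) / q + ((b ^ s * j : ℤ) : ℝ) := by
        push_cast
        field_simp
        ring
      rw [h1, nn_add_int]
      obtain ⟨A, hA⟩ : ∃ A : ℕ, A = b ^ (s + 1) * h := ⟨_, rfl⟩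
      rw [← hA]
      have h2 : ¬ q ∣ A := by
        intro hd
        apply hh
        rw [hA] at hd
        exact Nat.Coprime.dvd_of_dvd_mul_left (Nat.Coprime.pow_right (s + 1) hq) hd
      unfold nn
      obtain ⟨R, hR⟩ : ∃ R : ℤ, R = round ((A : ℝ) / q) := ⟨_, rfl⟩
      rw [← hR]
      have h3 : |(A : ℝ) / q - R| = |(((A : ℤ) - R * q : ℤ) : ℝ)| / q := by
        rw [← abs_of_pos hqr, ← abs_div, abs_of_pos hqr]
        congr 1
        push_cast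
        field_simp
      rw [h3]
      apply div_le_div_of_nonneg_right _ hqr.le
      have h4 : (A : ℤ) - R * q ≠ 0 := by
        intro h5
        apply h2
        have : (q : ℤ) ∣ (A : ℤ) := ⟨R, by linarith⟩
        exact_mod_cast this
      have h5 : 1 ≤ |(A : ℤ) - R * q| := Int.one_le_abs h4
      exact_mod_cast h5
  calc _ ≤ (g1 b η) ^ H * 1 := mul_le_mul h2 h1 (gg_nonneg _ _ _ hg0) (pow_nonneg hg0 _)
    _ = _ := mul_one _

/-- distribution modulo `q`, jointly with the last digit -/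
lemma equi1 {b : ℕ} (hb : 2 ≤ b) {η : ℝ} (hη : 0 < η) {w : ℕ → ℕ → ℝ} (hw : Dig b η w) (hc : Cons b η w) (i k m H q : ℕ)
    (hq : Nat.Coprime q b) (hqm : q ≤ b ^ m) (hk : H * (m + 1) + 1 ≤ k) (F : ℕ → ℝ) (hF : ∀ n, |F n| ≤ 1)
    (hper : ∀ n, F (n % b) = F n) (a : ℕ) :
    |∑ n ∈ range (b ^ k), P b w i k n * (F n * (if (q : ℤ) ∣ (n : ℤ) - a then 1 else 0)) - 1 / q * ∑ n ∈ range (b ^ k), P b w i k n * F n| ≤
      b * (g1 b η) ^ H := by
  have hq0 : q ≠ 0 := by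
    intro h0
    rw [h0, Nat.coprime_zero_left] at hq
    omega
  have hq1 : 1 ≤ q := Nat.pos_of_ne_zero hq0
  have hqc : (q : ℂ) ≠ 0 := by exact_mod_cast hq0
  obtain ⟨f, hf⟩ : ∃ f, f = b := ⟨_, rfl⟩
  have hf1 : 1 ≤ f := by rw [hf]; omega
  have hfc : (f : ℂ) ≠ 0 := by exact_mod_cast (by omega : f ≠ 0)
  obtain ⟨hg0, hg1⟩ := g1_bounds hb hη (eta_le hw)
  have h1 : ∀ n : ℕ, ((F n : ℝ) : ℂ) = ∑ ρ ∈ range f, ∑ j ∈ range f, ((F ρ : ℝ) : ℂ) * (1 / f) * ee ((j : ℝ) * ((((n : ℤ) - ρ : ℤ) : ℝ) / f)) := by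
    intro n
    have e1 : ∀ ρ ∈ range f, ∑ j ∈ range f, ((F ρ : ℝ) : ℂ) * (1 / f) * ee ((j : ℝ) * ((((n : ℤ) - ρ : ℤ) : ℝ) / f)) =
        if ρ = n % f then ((F ρ : ℝ) : ℂ) else 0 := by
      intro ρ hρ
      rw [mem_range] at hρ
      rw [← mul_sum, orth f hf1]
      by_cases h : ρ = n % f
      · rw [if_pos h, if_pos]
        · field_simp
        · rw [h]
          push_cast
          exact Int.dvd_self_sub_emod
      · rw [if_neg h, if_neg, mul_zero]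
        intro hd
        apply h
        have h2 : ((n : ℤ) - ρ) % f = 0 := Int.emod_eq_zero_of_dvd hd
        have h3 : (n : ℤ) % f = (ρ : ℤ) % f := Int.emod_eq_emod_iff_emod_sub_eq_zero.2 h2
        rw [Int.emod_eq_of_lt (by positivity : (0 : ℤ) ≤ ρ) (by exact_mod_cast hρ)] at h3
        exact_mod_cast h3.symm
    rw [sum_congr rfl e1, sum_ite_eq', if_pos (mem_range.2 (Nat.mod_lt _ (by omega))), hf, hper]
  have h2 : ∀ n : ℕ, (((if (q : ℤ) ∣ (n : ℤ) - a then (1 : ℝ) else 0) - 1 / q : ℝ) : ℂ) =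
      ∑ h ∈ (range q).erase 0, (1 / q) * ee ((h : ℝ) * ((((n : ℤ) - a : ℤ) : ℝ) / q)) := by
    intro n
    have e1 := orth q hq1 ((n : ℤ) - a)
    rw [← add_sum_erase _ _ (mem_range.2 (by omega : 0 < q))] at e1
    rw [← mul_sum]
    have e2 : ∑ h ∈ (range q).erase 0, ee ((h : ℝ) * ((((n : ℤ) - a : ℤ) : ℝ) / q)) = (if (q : ℤ) ∣ (n : ℤ) - a then (q : ℂ) else 0) - 1 := by
      rw [← e1, Nat.cast_zero, zero_mul, ee_zero]
      ring
    rw [e2]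
    split_ifs
    · push_cast
      field_simp
    · push_cast
      ring
  have h3 : (((∑ n ∈ range (b ^ k), P b w i k n * (F n * (if (q : ℤ) ∣ (n : ℤ) - a then 1 else 0)) - 1 / q * ∑ n ∈ range (b ^ k), P b w i k n * F n : ℝ)) : ℂ) =
      ∑ h ∈ (range q).erase 0, ∑ ρ ∈ range f, ∑ j ∈ range f, ((F ρ : ℝ) : ℂ) * (1 / f) * (1 / q) * ee (-((h : ℝ) * a / q + j * ρ / f)) *
        ∑ n ∈ range (b ^ k), ((P b w i k n : ℝ) : ℂ) * ee (n * ((h : ℝ) / q + (j : ℝ) / b)) := by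
    have e1 : ∑ n ∈ range (b ^ k), P b w i k n * (F n * (if (q : ℤ) ∣ (n : ℤ) - a then 1 else 0)) - 1 / q * ∑ n ∈ range (b ^ k), P b w i k n * F n =
        ∑ n ∈ range (b ^ k), P b w i k n * (F n * ((if (q : ℤ) ∣ (n : ℤ) - a then (1 : ℝ) else 0) - 1 / q)) := by
      rw [mul_sum, ← sum_sub_distrib]
      apply sum_congr rfl
      intro n _
      ring
    rw [e1, Complex.ofReal_sum]
    have e2 : ∀ n ∈ range (b ^ k), ((P b w i k n * (F n * ((if (q : ℤ) ∣ (n : ℤ) - a then (1 : ℝ) else 0) - 1 / q)) : ℝ) : ℂ) =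
        ∑ h ∈ (range q).erase 0, ∑ ρ ∈ range f, ∑ j ∈ range f, ((F ρ : ℝ) : ℂ) * (1 / f) * (1 / q) * ee (-((h : ℝ) * a / q + j * ρ / f)) *
          (((P b w i k n : ℝ) : ℂ) * ee (n * ((h : ℝ) / q + (j : ℝ) / b))) := by
      intro n _
      rw [Complex.ofReal_mul, Complex.ofReal_mul, h2 n, h1 n, mul_sum, mul_sum]
      apply sum_congr rfl
      intro h _
      rw [sum_mul, mul_sum]
      apply sum_congr rfl
      intro ρ _
      rw [sum_mul, mul_sum]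
      apply sum_congr rfl
      intro j _
      have e3 : ee (-((h : ℝ) * a / q + j * ρ / f)) * ee (n * ((h : ℝ) / q + (j : ℝ) / b)) =
          ee ((j : ℝ) * ((((n : ℤ) - ρ : ℤ) : ℝ) / f)) * ee ((h : ℝ) * ((((n : ℤ) - a : ℤ) : ℝ) / q)) := by
        rw [← ee_add, ← ee_add]
        congr 1
        rw [← hf]
        push_cast
        ring
      calc ((P b w i k n : ℝ) : ℂ) * (((F ρ : ℝ) : ℂ) * (1 / f) * ee ((j : ℝ) * ((((n : ℤ) - ρ : ℤ) : ℝ) / f)) * ((1 / q) * ee ((h : ℝ) * ((((n : ℤ) - a : ℤ) : ℝ) / q)))) =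
          ((F ρ : ℝ) : ℂ) * (1 / f) * (1 / q) * ((P b w i k n : ℝ) : ℂ) * (ee ((j : ℝ) * ((((n : ℤ) - ρ : ℤ) : ℝ) / f)) * ee ((h : ℝ) * ((((n : ℤ) - a : ℤ) : ℝ) / q))) := by ring
        _ = _ := by rw [← e3]; ring
    rw [sum_congr rfl e2, sum_comm]
    apply sum_congr rfl
    intro h _
    rw [sum_comm]
    apply sum_congr rfl
    intro ρ _
    rw [sum_comm]
    apply sum_congr rfl
    intro j _
    rw [mul_sum]
  have h4 : |∑ n ∈ range (b ^ k), P b w i k n * (F n * (if (q : ℤ) ∣ (n : ℤ) - a then 1 else 0)) - 1 / q * ∑ n ∈ range (b ^ k), P b w i k n * F n| =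
      ‖(((∑ n ∈ range (b ^ k), P b w i k n * (F n * (if (q : ℤ) ∣ (n : ℤ) - a then 1 else 0)) - 1 / q * ∑ n ∈ range (b ^ k), P b w i k n * F n : ℝ)) : ℂ)‖ := by
    rw [Complex.norm_real, Real.norm_eq_abs]
  rw [h4, h3]
  have hqr : (0 : ℝ) < q := by exact_mod_cast hq1
  have hfr : (0 : ℝ) < f := by exact_mod_cast hf1
  calc ‖∑ h ∈ (range q).erase 0, ∑ ρ ∈ range f, ∑ j ∈ range f, ((F ρ : ℝ) : ℂ) * (1 / f) * (1 / q) * ee (-((h : ℝ) * a / q + j * ρ / f)) *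
        ∑ n ∈ range (b ^ k), ((P b w i k n : ℝ) : ℂ) * ee (n * ((h : ℝ) / q + (j : ℝ) / b))‖ ≤
      ∑ h ∈ (range q).erase 0, ∑ ρ ∈ range f, ∑ j ∈ range f, (1 / f) * (1 / q) * (g1 b η) ^ H := by
        refine (norm_sum_le _ _).trans (sum_le_sum fun h hh => ?_)
        refine (norm_sum_le _ _).trans (sum_le_sum fun ρ _ => ?_)
        refine (norm_sum_le _ _).trans (sum_le_sum fun j _ => ?_)
        rw [mem_erase, mem_range] at hh
        rw [norm_mul, norm_mul, norm_mul, norm_mul, norm_ee, mul_one, Complex.norm_real, Real.norm_eq_abs]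
        have e1 : ‖(1 / f : ℂ)‖ = 1 / f := by rw [norm_div, norm_one, Complex.norm_natCast]
        have e2 : ‖(1 / q : ℂ)‖ = 1 / q := by rw [norm_div, norm_one, Complex.norm_natCast]
        rw [e1, e2]
        have e3 := char_rat1 hb hη hw hc i k m H q hq hqm hk h j (fun hd => by
          have := Nat.le_of_dvd (by omega) hd
          omega)
        apply mul_le_mul _ e3 (norm_nonneg _) (by positivity)
        apply mul_le_mul_of_nonneg_right _ (by positivity)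
        calc |F ρ| * (1 / f) ≤ 1 * (1 / f) := mul_le_mul_of_nonneg_right (hF ρ) (by positivity)
          _ = _ := one_mul _
    _ = ((q - 1 : ℕ) : ℝ) * (f * (f * ((1 / f) * (1 / q) * (g1 b η) ^ H))) := by
        rw [sum_const, sum_const, sum_const, card_erase_of_mem (mem_range.2 (by omega)), card_range, card_range]
        simp only [nsmul_eq_mul]
    _ ≤ (q : ℝ) * (f * (f * ((1 / f) * (1 / q) * (g1 b η) ^ H))) := by
        apply mul_le_mul_of_nonneg_right _ (by have := pow_nonneg hg0 H; positivity)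
        exact_mod_cast Nat.sub_le _ _
    _ = b * (g1 b η) ^ H := by rw [← hf]; field_simp

lemma equiP_base {b : ℕ} (hb : 2 ≤ b) {η : ℝ} (hη : 0 < η) {w : ℕ → ℕ → ℝ} (hw : Dig b η w) (hc : Cons b η w) (i k : ℕ) :
    EquiP b b (g1 b η) w i k := fun m H q hq hqm hk Φ hΦ hper a =>
  equi1 hb hη hw hc i k m H q hq hqm hk Φ hΦ hper a

end Pool.Agent.HP25.RD
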